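import Pool.Agent.H628R5.SN.Defs
import Pool.Agent.H620R2.Gauge.Base

/-!
# The objects of the proof
-/

namespace Pool.Agent.H628R5.SN

open Pool.Agent.NPC Pool.Agent.H620R2.Gauge Finset H568R2 Pool.Agent.H676

/-! ### The language for `NC` -/

/-- the bits of the address of `x` -/
def addr (n : ℕ) (A : Oracle) (x : Fin n → Bool) : Fin (2 * n) → Bool :=
  fun i => A (List.ofFn x ++ List.replicate i true)

/-- the string with the address `a` of `x` (length `4 n`) -/
def leafS (n : ℕ) (x : Fin n → Bool) (a : Fin (2 * n) → Bool) : List Bool :=
  List.ofFn x ++ List.ofFn a ++ List.replicate n true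

/-- The test function for `NC`. -/
def leafF (A : Oracle) : Fam := fun n x => A (leafS n x (addr n A x))

/-! ### The language for `SC` -/

/-- `(⌊log₂ n⌋ + 1)²` -/
def side (n : ℕ) : ℕ := (Nat.log 2 n + 1) ^ 2

/-- the position number `i` of the entry of the value `y` at the step `j` for the input `x` -/
def ent (n : ℕ) (x : Fin n → Bool) (j : ℕ) (y : Fin (side n) → Bool) (i : ℕ) : List Bool :=
  List.ofFn x ++ List.ofFn y ++ (List.replicate i true ++ false :: List.replicate j true)

/-- the chain -/
def chain (n : ℕ) (A : Oracle) (x : Fin n → Bool) : ℕ → Fin (side n) → Bool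
  | 0 => fun _ => false
  | j + 1 => fun i => A (ent n x j (chain n A x j) i)

/-- The test function for `SC`: the first bit of the value after `n` steps. -/
def chainF (A : Oracle) : Fam := fun n x =>
  A (ent n x (n - 1) (chain n A x (n - 1)) 0)

/-! ### Questions -/

/-- the questions of the layer number `j` (the gates `C j`) -/
noncomputable def OC.asks {n w d m : ℕ} (C : OC n w d m) (A : Oracle) (x : Fin n → Bool)
    (j : ℕ) : Finset (List Bool) :=
  if h : j < d then univ.biUnion (fun i : Fin w =>
    match C ⟨j, h⟩ i with
    | .ask k s => {query x (C.layer A x j) k s}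
    | _ => ∅)
  else ∅

/-! ### Coding -/

/-- the number of bits for a circuit -/
def bitsC (n w d m : ℕ) : ℕ := Nat.clog 2 (Fintype.card (OC n w d m))

/-- the description of a circuit and an input -/
noncomputable def descr {n w d m : ℕ} (C : OC n w d m) (x : Fin n → Bool) : List Bool :=
  List.replicate n true ++ false :: (List.replicate w true ++ false ::
    (List.replicate d true ++ false :: (List.replicate m true ++ false ::
      (bitsOf (bitsC n w d m) (Fintype.equivFin (OC n w d m) C) ++ List.ofFn x))))

/-- the length polynomials -/
noncomputable def RR (K : ℕ) (e : ℕ) : Polynomial ℕ := (Polynomial.X + Polynomial.C (e + 1)) ^ K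

end Pool.Agent.H628R5.SN
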