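import Pool.Agent.H620R2.Gauge.Defs

/-!
# Layered circuits with oracle gates

A circuit has `d` layers of `w` gates. The inputs of a gate come from the former layer, or they are
literals or constants (which are available at every layer). Besides AND, OR, NOT there are gates
which ask whether the string of their (at most `m`) inputs is in the oracle.
-/

namespace Pool.Agent.H628R5.SN

open Pool.Agent.H620R2.Gauge

/-- The source of a wire: the literal `x i = b`, a constant, or the gate `j` of the former layer. -/
inductive Src (n w : ℕ) : Type
  | lit (i : Fin n) (b : Bool)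
  | const (b : Bool)
  | prev (j : Fin w)
  deriving DecidableEq, Fintype

/-- The gates: AND, OR, NOT, and oracle gates with `k ≤ m` inputs (the first `k` entries of `s`). -/
inductive Gate (n w m : ℕ) : Type
  | and (a b : Src n w)
  | or (a b : Src n w)
  | not (a : Src n w)
  | ask (k : Fin (m + 1)) (s : Fin m → Src n w)
  deriving DecidableEq, Fintype

/-- A circuit with `n` inputs and `d` layers of `w` gates; oracle gates have fan-in at most `m`. -/
abbrev OC (n w d m : ℕ) : Type := Fin d → Fin w → Gate n w m

variable {n w d m : ℕ}

/-- The value of a source, on input `x` and with the values `v` of the former layer. -/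
def Src.val (x : Fin n → Bool) (v : Fin w → Bool) : Src n w → Bool
  | .lit i b => x i == b
  | .const b => b
  | .prev j => v j

/-- The question of an oracle gate. -/
def query (x : Fin n → Bool) (v : Fin w → Bool) (k : Fin (m + 1)) (s : Fin m → Src n w) :
    List Bool :=
  (List.ofFn (fun i => (s i).val x v)).take k

/-- The value of a gate. -/
def Gate.val (A : Oracle) (x : Fin n → Bool) (v : Fin w → Bool) : Gate n w m → Bool
  | .and a b => a.val x v && b.val x v
  | .or a b => a.val x v || b.val x v
  | .not a => !a.val x v
  | .ask k s => A (query x v k s)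

/-- The values of the gates of the layer number `j` (the layer `0` consists of zeros; the last
layer is repeated for ever). -/
def OC.layer (C : OC n w d m) (A : Oracle) (x : Fin n → Bool) : ℕ → Fin w → Bool
  | 0 => fun _ => false
  | j + 1 => if h : j < d then fun i => (C ⟨j, h⟩ i).val A x (C.layer A x j) else C.layer A x j

/-- The output of the circuit: the value of the first gate of the last layer. -/
def OC.out (C : OC n w d m) (A : Oracle) (x : Fin n → Bool) : Bool :=
  if h : 0 < w then C.layer A x d ⟨0, h⟩ else false

/-- A family of Boolean functions. -/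
abbrev Fam : Type := (n : ℕ) → (Fin n → Bool) → Bool

/-- Non-uniform `SC` relative to `A`: polynomial size and polylogarithmic width. -/
def InSC (A : Oracle) (g : Fam) : Prop :=
  ∃ c, ∀ n, ∃ w d m, w ≤ Nat.log 2 n ^ c + c ∧ d ≤ n ^ c + c ∧ m ≤ n ^ c + c ∧
    ∃ C : OC n w d m, ∀ x, C.out A x = g n x

/-- Non-uniform `NC` relative to `A`: polynomial size and polylogarithmic depth. -/
def InNC (A : Oracle) (g : Fam) : Prop :=
  ∃ c, ∀ n, ∃ w d m, w ≤ n ^ c + c ∧ d ≤ Nat.log 2 n ^ c + c ∧ m ≤ n ^ c + c ∧
    ∃ C : OC n w d m, ∀ x, C.out A x = g n x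

/-- `P/poly` relative to `A`: polynomial size. -/
def InPpoly (A : Oracle) (g : Fam) : Prop :=
  ∃ c, ∀ n, ∃ w d m, w ≤ n ^ c + c ∧ d ≤ n ^ c + c ∧ m ≤ n ^ c + c ∧
    ∃ C : OC n w d m, ∀ x, C.out A x = g n x

/-- The functions computed by single oracle gates of polynomial fan-in. -/
def InOne (A : Oracle) (g : Fam) : Prop :=
  ∃ c, ∀ n, ∃ l : List (Src n 0), l.length ≤ n ^ c + c ∧
    ∀ x, g n x = A (l.map (Src.val x (fun j => j.elim0)))

end Pool.Agent.H628R5.SN
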