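import Pool.Agent.H628R5.SN.Base
import Pool.Agent.H620R2.Gauge.NonNull
import Pool.Agent.H620R2.Gauge2.Null
import Pool.Agent.H620R2.Gauge.Y
import Pool.Agent.H620R2.Gauge.Cover

/-! Task BIT (helper388) -/

set_option autoImplicit false

namespace Pool.Agent.H628R5.SN

theorem BIT_card_src (n w : ℕ) : Fintype.card (Src n w) ≤ 2 * n + 2 + w := by
  have h := Fintype.card_le_of_injective
    (fun s : Src n w => match s with
      | .lit i b => (Sum.inl (i, b) : (Fin n × Bool) ⊕ (Bool ⊕ Fin w))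
      | .const b => Sum.inr (Sum.inl b)
      | .prev j => Sum.inr (Sum.inr j))
    (by
      intro s t h
      cases s <;> cases t <;> simp_all)
  refine h.trans (le_of_eq ?_)
  simp only [Fintype.card_sum, Fintype.card_prod, Fintype.card_fin, Fintype.card_bool]
  ring

theorem BIT_card_gate (n w m : ℕ) : Fintype.card (Gate n w m) ≤
    Fintype.card (Src n w) ^ 2 + (Fintype.card (Src n w) ^ 2 + (Fintype.card (Src n w) +
      (m + 1) * Fintype.card (Src n w) ^ m)) := by
  have h := Fintype.card_le_of_injective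
    (fun g : Gate n w m => match g with
      | .and a b => (Sum.inl (a, b) : (Src n w × Src n w) ⊕ ((Src n w × Src n w) ⊕
          (Src n w ⊕ (Fin (m + 1) × (Fin m → Src n w)))))
      | .or a b => Sum.inr (Sum.inl (a, b))
      | .not a => Sum.inr (Sum.inr (Sum.inl a))
      | .ask k s => Sum.inr (Sum.inr (Sum.inr (k, s))))
    (by
      intro s t h
      cases s <;> cases t <;> simp_all)
  refine h.trans (le_of_eq ?_)
  simp only [Fintype.card_sum, Fintype.card_prod, Fintype.card_fin, Fintype.card_fun]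
  ring

theorem BIT_gate (n w m : ℕ) : Fintype.card (Gate n w m) ≤
    2 ^ ((m + 3) * (2 * n + w + m + 10)) := by
  set T := 2 * n + w + m + 10 with hT
  set s := Fintype.card (Src n w) with hs
  have h1 : s ≤ T := by
    have := BIT_card_src n w
    omega
  have h2 := BIT_card_gate n w m
  rw [← hs] at h2
  have hT10 : 10 ≤ T := by omega
  have hTm : 1 ≤ T ^ m := Nat.one_le_pow _ _ (by omega)
  have h3 : s ^ 2 ≤ T ^ 2 := Nat.pow_le_pow_left h1 2
  have h4 : s ^ m ≤ T ^ m := Nat.pow_le_pow_left h1 m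
  have h5 : (m + 1) * s ^ m ≤ T * T ^ m := Nat.mul_le_mul (by omega) h4
  have h6 : Fintype.card (Gate n w m) ≤ T ^ (m + 3) := by
    calc Fintype.card (Gate n w m) ≤ s ^ 2 + (s ^ 2 + (s + (m + 1) * s ^ m)) := h2
      _ ≤ T ^ 2 + (T ^ 2 + (T + T * T ^ m)) := by omega
      _ ≤ T ^ 2 * T ^ m + (T ^ 2 * T ^ m + (T * T ^ m + T * T ^ m)) := by
        have a1 : T ^ 2 ≤ T ^ 2 * T ^ m := Nat.le_mul_of_pos_right _ hTm
        have a2 : T ≤ T * T ^ m := Nat.le_mul_of_pos_right _ hTm
        omega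
      _ = (2 * T ^ 2 + 2 * T) * T ^ m := by ring
      _ ≤ T ^ 3 * T ^ m := by
        apply Nat.mul_le_mul_right
        nlinarith [Nat.mul_le_mul hT10 (le_refl T), Nat.mul_le_mul hT10 (le_refl (T ^ 2))]
      _ = T ^ (m + 3) := by rw [← pow_add]; ring_nf
  calc Fintype.card (Gate n w m) ≤ T ^ (m + 3) := h6
    _ ≤ (2 ^ T) ^ (m + 3) := Nat.pow_le_pow_left (Nat.lt_two_pow_self (n := T)).le _
    _ = 2 ^ ((m + 3) * T) := by rw [← pow_mul, mul_comm]

theorem bitsC_le (n w d m : ℕ) : bitsC n w d m ≤ w * d * ((m + 3) * (2 * n + w + m + 10)) := by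
  unfold bitsC
  apply Nat.clog_le_of_le_pow
  have h1 : Fintype.card (OC n w d m) = (Fintype.card (Gate n w m) ^ w) ^ d := by
    simp [OC]
  rw [h1]
  calc (Fintype.card (Gate n w m) ^ w) ^ d
      ≤ ((2 ^ ((m + 3) * (2 * n + w + m + 10))) ^ w) ^ d :=
        Nat.pow_le_pow_left (Nat.pow_le_pow_left (BIT_gate n w m) w) d
    _ = 2 ^ (w * d * ((m + 3) * (2 * n + w + m + 10))) := by
        rw [← pow_mul, ← pow_mul]
        congr 1
        ring

end Pool.Agent.H628R5.SN

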