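import Pool.Agent.H628R5.SN.F_HIT

/-! Few inputs are bad. -/

namespace Pool.Agent.H628R5.SN

open Pool.Agent.NPC Pool.Agent.H620R2.Gauge Finset H568R2 Pool.Agent.H676

theorem C3_sum {n : ℕ} (T : Finset (List Bool)) :
    ∑ x : Fin n → Bool, (T.filter (fun y => List.ofFn x <+: y)).card ≤ T.card := by
  classical
  simp only [Finset.card_filter]
  rw [Finset.sum_comm]
  rw [Finset.card_eq_sum_ones]
  refine Finset.sum_le_sum fun y _ => ?_
  rw [← Finset.card_filter, Finset.card_le_one]
  intro a ha b hb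
  rw [Finset.mem_filter] at ha hb
  have h1 := ha.2
  have h2 := hb.2
  have h3 : List.ofFn a <+: List.ofFn b :=
    List.prefix_of_prefix_length_le h1 h2 (by simp)
  exact List.ofFn_injective (h3.eq_of_length (by simp))

theorem many_badC {n N r q : ℕ} (hn : 2 ≤ n) (hN : 2 ^ (2 * n + 2 * side n + 3) ≤ N)
    (hr : r < n) (Qs : (Fin n → Bool) → ℕ → (Fin N → Bool) → Finset (List Bool))
    (hloc : ∀ x i v v', (∀ i' < i, ∀ y ∈ Qs x i' v, orc N v y = orc N v' y) →
      Qs x i v = Qs x i v') (hq : ∀ x v, ∑ i ∈ range r, (Qs x i v).card ≤ q)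
    (hs : 2 ^ 10 * (r * n * (4 * q)) ≤ 2 ^ side n) :
    (univ.filter (fun v : Fin N → Bool => 2 ^ (n - 1) ≤ (univ.filter (fun x : Fin n → Bool =>
      ∃ i < r, ∃ x', ∃ k < side n,
        ent n x (n - 1) (chain n (orc N v) x (n - 1)) k ∈ Qs x' i v)).card)).card *
      2 ^ 2 ^ n ≤ 2 ^ N := by
  classical
  set m := 2 ^ (n - 2) with hm
  have h4m : 2 ^ n = 4 * m := by
    rw [hm, show (4 : ℕ) = 2 ^ 2 by norm_num, ← pow_add]
    congr 1
    omega
  have h2m : 2 ^ (n - 1) = 2 * m := by
    rw [hm, ← pow_succ']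
    congr 1
    omega
  let bad : (Fin N → Bool) → (Fin n → Bool) → Prop := fun v x =>
    ∃ i < r, ∃ x', ∃ k < side n, ent n x (n - 1) (chain n (orc N v) x (n - 1)) k ∈ Qs x' i v
  let TT : (Fin N → Bool) → Finset (List Bool) := fun v =>
    univ.biUnion (fun x' => (range r).biUnion (fun i => Qs x' i v))
  let cnt : (Fin N → Bool) → (Fin n → Bool) → ℕ := fun v x =>
    ((TT v).filter (fun y => List.ofFn x <+: y)).card
  let E : Finset (Fin n → Bool) → Finset (Fin N → Bool) := fun S =>
    univ.filter (fun v => ∀ x ∈ S, bad v x ∧ cnt v x ≤ 4 * q)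
  have hTT : ∀ v, (TT v).card ≤ 2 ^ n * q := by
    intro v
    refine (Finset.card_biUnion_le).trans ?_
    refine (Finset.sum_le_sum (g := fun _ => q) ?_).trans ?_
    · intro x' _
      exact (Finset.card_biUnion_le).trans (hq x' v)
    · rw [Finset.sum_const, smul_eq_mul, Finset.card_univ, Fintype.card_fun, Fintype.card_bool,
        Fintype.card_fin]
  have hmany : ∀ v, (univ.filter (fun x => 4 * q < cnt v x)).card ≤ m := by
    intro v
    have h1 : (univ.filter (fun x => 4 * q < cnt v x)).card * (4 * q + 1) ≤ 2 ^ n * q := by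
      refine le_trans ?_ (hTT v)
      refine le_trans ?_ (C3_sum (TT v) (n := n))
      calc (univ.filter (fun x => 4 * q < cnt v x)).card * (4 * q + 1)
          = ∑ _x ∈ univ.filter (fun x => 4 * q < cnt v x), (4 * q + 1) := by
            rw [Finset.sum_const, smul_eq_mul]
        _ ≤ ∑ x ∈ univ.filter (fun x => 4 * q < cnt v x), cnt v x := by
            refine Finset.sum_le_sum fun x hx => ?_
            exact (Finset.mem_filter.1 hx).2
        _ ≤ _ := Finset.sum_le_sum_of_subset (Finset.filter_subset _ _)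
    rw [h4m] at h1
    set a := (univ.filter (fun x => 4 * q < cnt v x)).card
    rcases Nat.eq_zero_or_pos q with h0 | h0
    · subst h0
      simp at h1
      omega
    · by_contra hcon
      push Not at hcon
      have : (m + 1) * (4 * q + 1) ≤ a * (4 * q + 1) := Nat.mul_le_mul_right _ hcon
      nlinarith
  have hsub : (univ.filter (fun v : Fin N → Bool => 2 ^ (n - 1) ≤
      (univ.filter (fun x : Fin n → Bool => ∃ i < r, ∃ x', ∃ k < side n,
        ent n x (n - 1) (chain n (orc N v) x (n - 1)) k ∈ Qs x' i v)).card)) ⊆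
      (powersetCard m (univ : Finset (Fin n → Bool))).biUnion E := by
    intro v hv
    rw [mem_filter] at hv
    have hb : 2 * m ≤ (univ.filter (fun x => bad v x)).card := by
      rw [← h2m]
      refine hv.2.trans (le_of_eq ?_)
      congr!
    have hsplit : (univ.filter (fun x => bad v x)).card ≤
        (univ.filter (fun x => bad v x ∧ cnt v x ≤ 4 * q)).card +
        (univ.filter (fun x => 4 * q < cnt v x)).card := by
      refine le_trans (Finset.card_le_card ?_) (Finset.card_union_le _ _)
      intro x hx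
      rw [mem_filter] at hx
      rw [mem_union, mem_filter, mem_filter]
      by_cases hc : cnt v x ≤ 4 * q
      · exact Or.inl ⟨mem_univ _, hx.2, hc⟩
      · exact Or.inr ⟨mem_univ _, by omega⟩
    have hge : m ≤ (univ.filter (fun x => bad v x ∧ cnt v x ≤ 4 * q)).card := by
      have := hmany v
      omega
    obtain ⟨S, hS, hSc⟩ := Finset.exists_subset_card_eq hge
    rw [mem_biUnion]
    refine ⟨S, ?_, ?_⟩
    · rw [mem_powersetCard]
      exact ⟨subset_univ _, hSc⟩
    · show v ∈ univ.filter _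
      rw [mem_filter]
      refine ⟨mem_univ _, fun x hx => ?_⟩
      exact (mem_filter.1 (hS hx)).2
  have hES : ∀ S ∈ powersetCard m (univ : Finset (Fin n → Bool)),
      (E S).card * 2 ^ (10 * m) ≤ 2 ^ N := by
    intro S hS
    rw [mem_powersetCard] at hS
    have h := hit (q := 4 * q) hN hr Qs hloc S
    rw [hS.2] at h
    have h' : (E S).card * 2 ^ (side n * m) ≤ 2 ^ N * (r * n * (4 * q)) ^ m := by
      refine le_trans (le_of_eq ?_) h
      congr 2
    have h1 : (2 ^ 10 * (r * n * (4 * q))) ^ m ≤ (2 ^ side n) ^ m := Nat.pow_le_pow_left hs m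
    rw [mul_pow, ← pow_mul, ← pow_mul] at h1
    have h2 : (E S).card * 2 ^ (10 * m) * 2 ^ (side n * m) ≤ 2 ^ N * 2 ^ (side n * m) := by
      calc (E S).card * 2 ^ (10 * m) * 2 ^ (side n * m)
          = 2 ^ (10 * m) * ((E S).card * 2 ^ (side n * m)) := by ring
        _ ≤ 2 ^ (10 * m) * (2 ^ N * (r * n * (4 * q)) ^ m) := Nat.mul_le_mul_left _ h'
        _ = 2 ^ N * (2 ^ (10 * m) * (r * n * (4 * q)) ^ m) := by ring
        _ ≤ _ := Nat.mul_le_mul_left _ h1
    exact Nat.le_of_mul_le_mul_right h2 (by positivity)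
  have hcard : (univ.filter (fun v : Fin N → Bool => 2 ^ (n - 1) ≤
      (univ.filter (fun x : Fin n → Bool => ∃ i < r, ∃ x', ∃ k < side n,
        ent n x (n - 1) (chain n (orc N v) x (n - 1)) k ∈ Qs x' i v)).card)).card *
        2 ^ (10 * m) ≤ 2 ^ (4 * m) * 2 ^ N := by
    have h1 := (Finset.card_le_card hsub).trans Finset.card_biUnion_le
    refine (Nat.mul_le_mul_right _ h1).trans ?_
    rw [Finset.sum_mul]
    refine (Finset.sum_le_sum hES).trans ?_
    rw [Finset.sum_const, smul_eq_mul]
    apply Nat.mul_le_mul_right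
    refine (Finset.card_le_card (t := (univ : Finset (Fin n → Bool)).powerset) ?_).trans ?_
    · intro S hS
      rw [Finset.mem_powerset]
      exact (Finset.mem_powersetCard.1 hS).1
    rw [Finset.card_powerset, Finset.card_univ, Fintype.card_fun, Fintype.card_bool,
      Fintype.card_fin, h4m]
  rw [h4m]
  set c := (univ.filter (fun v : Fin N → Bool => 2 ^ (n - 1) ≤
      (univ.filter (fun x : Fin n → Bool => ∃ i < r, ∃ x', ∃ k < side n,
        ent n x (n - 1) (chain n (orc N v) x (n - 1)) k ∈ Qs x' i v)).card)).card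
  have h5 : 2 ^ (4 * m) * (c * 2 ^ (6 * m)) ≤ 2 ^ (4 * m) * 2 ^ N := by
    refine le_trans (le_of_eq ?_) hcard
    rw [show 10 * m = 4 * m + 6 * m by ring, pow_add]
    ring
  have h6 := Nat.le_of_mul_le_mul_left h5 (by positivity)
  refine le_trans ?_ h6
  apply Nat.mul_le_mul_left
  exact Nat.pow_le_pow_right (by norm_num) (by omega)

end Pool.Agent.H628R5.SN
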