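import Pool.Agent.H628R5.SN.Base

/-! Flipping the bits at good places. -/

namespace Pool.Agent.H628R5.SN

open Pool.Agent.NPC Pool.Agent.H620R2.Gauge Finset H568R2 Pool.Agent.H676

namespace FLIB

variable {I : Type*} [Fintype I] [DecidableEq I] {ι : Type*} [DecidableEq ι]

/-- flip the bits at the places of the elements of `T` -/
def fl (pos : ι → (I → Bool) → I) (v : I → Bool) (T : Finset ι) : I → Bool :=
  fun p => if p ∈ T.image (fun x => pos x v) then !(v p) else v p

open Classical in
theorem inv (X : Finset ι) (pos : ι → (I → Bool) → I) (good : ι → (I → Bool) → Prop)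
    (G : ι → (I → Bool) → Bool)
    (hinj : ∀ v, ∀ x ∈ X, ∀ x' ∈ X, good x v → good x' v → pos x v = pos x' v → x = x')
    (hflip : ∀ v, ∀ x ∈ X, good x v → ∀ x' ∈ X,
      (good x' (Function.update v (pos x v) (!v (pos x v))) ↔ good x' v) ∧
      (good x' v → pos x' (Function.update v (pos x v) (!v (pos x v))) = pos x' v) ∧
      G x' (Function.update v (pos x v) (!v (pos x v))) = G x' v)
    (v : I → Bool) (T : Finset ι) (hT : T ⊆ X.filter (fun x => good x v)) :
    ∀ x' ∈ X, (good x' (fl pos v T) ↔ good x' v) ∧
      (good x' v → pos x' (fl pos v T) = pos x' v) ∧ G x' (fl pos v T) = G x' v := by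
  induction T using Finset.induction_on with
  | empty =>
    have : fl pos v ∅ = v := by
      funext p
      simp [fl]
    rw [this]
    intro x' _
    exact ⟨Iff.rfl, fun _ => rfl, rfl⟩
  | @insert a T ha ih =>
    have hT' : T ⊆ X.filter (fun x => good x v) := (Finset.subset_insert a T).trans hT
    have haX := Finset.mem_filter.1 (hT (Finset.mem_insert_self a T))
    have ih' := ih hT'
    obtain ⟨g1, g2, _⟩ := ih' a haX.1
    have hga := g1.2 haX.2
    have hpa := g2 haX.2
    have hnot : pos a v ∉ T.image (fun x => pos x v) := by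
      rw [Finset.mem_image]
      rintro ⟨b, hb, hbe⟩
      have hb' := Finset.mem_filter.1 (hT' hb)
      have := hinj v b hb'.1 a haX.1 hb'.2 haX.2 hbe
      subst this
      exact ha hb
    have he : fl pos v (insert a T) =
        Function.update (fl pos v T) (pos a (fl pos v T)) (!(fl pos v T) (pos a (fl pos v T))) := by
      rw [hpa]
      funext p
      by_cases hp : p = pos a v
      · subst hp
        rw [Function.update_self]
        unfold fl
        rw [if_pos (by rw [Finset.image_insert]; exact Finset.mem_insert_self _ _), if_neg hnot]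
      · rw [Function.update_of_ne hp]
        unfold fl
        rw [Finset.image_insert]
        simp only [Finset.mem_insert, hp, false_or]
    intro x' hx'
    rw [he]
    obtain ⟨a1, a2, a3⟩ := hflip (fl pos v T) a haX.1 hga x' hx'
    obtain ⟨b1, b2, b3⟩ := ih' x' hx'
    refine ⟨a1.trans b1, fun h => ?_, a3.trans b3⟩
    rw [a2 (b1.2 h), b2 h]

open Classical in
/-- a chosen subset with `u` elements -/
noncomputable def ch (u : ℕ) (F : Finset ι) : Finset ι :=
  if h : u ≤ F.card then (Finset.exists_subset_card_eq h).choose else ∅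

theorem ch_sub {u : ℕ} {F : Finset ι} (h : u ≤ F.card) : ch u F ⊆ F ∧ (ch u F).card = u := by
  unfold ch
  rw [dif_pos h]
  exact (Finset.exists_subset_card_eq h).choose_spec

end FLIB

open FLIB in
open Classical in
theorem flip_general {I : Type*} [Fintype I] [DecidableEq I] {ι : Type*} [DecidableEq ι]
    (X : Finset ι) (pos : ι → (I → Bool) → I) (good : ι → (I → Bool) → Prop)
    (G : ι → (I → Bool) → Bool) (u : ℕ)
    (hinj : ∀ v, ∀ x ∈ X, ∀ x' ∈ X, good x v → good x' v → pos x v = pos x' v → x = x')
    (hflip : ∀ v, ∀ x ∈ X, good x v → ∀ x' ∈ X,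
      (good x' (Function.update v (pos x v) (!v (pos x v))) ↔ good x' v) ∧
      (good x' v → pos x' (Function.update v (pos x v) (!v (pos x v))) = pos x' v) ∧
      G x' (Function.update v (pos x v) (!v (pos x v))) = G x' v) :
    (univ.filter (fun v : I → Bool => (∀ x ∈ X, good x v → G x v = v (pos x v)) ∧
      u ≤ (X.filter (fun x => good x v)).card)).card * 2 ^ u ≤ 2 ^ Fintype.card I := by
  set E := univ.filter (fun v : I → Bool => (∀ x ∈ X, good x v → G x v = v (pos x v)) ∧
      u ≤ (X.filter (fun x => good x v)).card) with hE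
  have hmem : ∀ v ∈ E, (∀ x ∈ X, good x v → G x v = v (pos x v)) ∧
      u ≤ (X.filter (fun x => good x v)).card := fun v hv => (Finset.mem_filter.1 hv).2
  let F : (I → Bool) → Finset ι := fun v => ch u (X.filter (fun x => good x v))
  have hFsub : ∀ v ∈ E, F v ⊆ X.filter (fun x => good x v) := fun v hv => (ch_sub (hmem v hv).2).1
  have hFcard : ∀ v ∈ E, (F v).card = u := fun v hv => (ch_sub (hmem v hv).2).2
  have hcard : (E.sigma (fun v => (F v).powerset)).card = E.card * 2 ^ u := by
    rw [Finset.card_sigma, Finset.sum_congr rfl (fun v hv => by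
      rw [Finset.card_powerset, hFcard v hv]), Finset.sum_const, smul_eq_mul]
  have hcard2 : 2 ^ Fintype.card I = (univ : Finset (I → Bool)).card := by simp
  rw [← hcard, hcard2]
  refine Finset.card_le_card_of_injOn (fun p => fl pos p.1 p.2) (fun _ _ => Finset.mem_univ _) ?_
  rintro ⟨v, T⟩ hv ⟨v', T'⟩ hv' he
  rw [Finset.mem_coe, Finset.mem_sigma] at hv hv'
  simp only at hv hv' he
  obtain ⟨hv, hT⟩ := hv
  obtain ⟨hv', hT'⟩ := hv'
  rw [Finset.mem_powerset] at hT hT'
  have i1 := inv X pos good G hinj hflip v T (hT.trans (hFsub v hv))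
  have i2 := inv X pos good G hinj hflip v' T' (hT'.trans (hFsub v' hv'))
  have hgood : ∀ x ∈ X, (good x v ↔ good x v') := by
    intro x hx
    rw [← (i1 x hx).1, ← (i2 x hx).1, he]
  have hfil : X.filter (fun x => good x v) = X.filter (fun x => good x v') :=
    Finset.filter_congr hgood
  have hFF : F v = F v' := by
    show ch u _ = ch u _
    rw [hfil]
  have hpos : ∀ x ∈ X, good x v → pos x v = pos x v' := by
    intro x hx hg
    rw [← (i1 x hx).2.1 hg, ← (i2 x hx).2.1 ((hgood x hx).1 hg), he]
  have hG : ∀ x ∈ X, G x v = G x v' := by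
    intro x hx
    rw [← (i1 x hx).2.2, ← (i2 x hx).2.2, he]
  have hval : ∀ x ∈ X, good x v → v (pos x v) = v' (pos x v) := by
    intro x hx hg
    rw [← (hmem v hv).1 x hx hg, hpos x hx hg, ← (hmem v' hv').1 x hx ((hgood x hx).1 hg), hG x hx]
  have hmemT : ∀ x ∈ X, good x v → (x ∈ T ↔ pos x v ∈ T.image (fun y => pos y v)) := by
    intro x hx hg
    constructor
    · intro h
      exact Finset.mem_image_of_mem _ h
    · intro h
      obtain ⟨y, hy, hye⟩ := Finset.mem_image.1 h
      have hy' := Finset.mem_filter.1 (hFsub v hv (hT hy))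
      rwa [← hinj v y hy'.1 x hx hy'.2 hg hye]
  have hmemT' : ∀ x ∈ X, good x v → (x ∈ T' ↔ pos x v ∈ T'.image (fun y => pos y v')) := by
    intro x hx hg
    rw [hpos x hx hg]
    constructor
    · intro h
      exact Finset.mem_image_of_mem (fun y => pos y v') h
    · intro h
      obtain ⟨y, hy, hye⟩ := Finset.mem_image.1 h
      have hy' := Finset.mem_filter.1 (hFsub v' hv' (hT' hy))
      rwa [← hinj v' y hy'.1 x hx hy'.2 ((hgood x hx).1 hg) hye]
  have hTX : ∀ x ∈ T, x ∈ X ∧ good x v := fun x hx => Finset.mem_filter.1 (hFsub v hv (hT hx))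
  have hTX' : ∀ x ∈ T', x ∈ X ∧ good x v := by
    intro x hx
    have := Finset.mem_filter.1 (hFsub v' hv' (hT' hx))
    exact ⟨this.1, (hgood x this.1).2 this.2⟩
  have hTT : T = T' := by
    ext x
    have key : x ∈ X → good x v → (x ∈ T ↔ x ∈ T') := by
      intro hx hg
      have a1 := congrFun he (pos x v)
      unfold fl at a1
      rw [hmemT x hx hg, hmemT' x hx hg]
      have a2 := hval x hx hg
      split_ifs at a1 with c1 c2 c2
      · exact ⟨fun _ => c2, fun _ => c1⟩
      · rw [a2] at a1
        cases h : v' (pos x v) <;> simp [h] at a1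
      · rw [a2] at a1
        cases h : v' (pos x v) <;> simp [h] at a1
      · exact ⟨fun h => absurd h c1, fun h => absurd h c2⟩
    constructor
    · intro h
      obtain ⟨h1, h2⟩ := hTX x h
      exact (key h1 h2).1 h
    · intro h
      obtain ⟨h1, h2⟩ := hTX' x h
      exact (key h1 h2).2 h
  subst hTT
  have himg : T.image (fun x => pos x v) = T.image (fun x => pos x v') := by
    apply Finset.image_congr
    intro x hx
    obtain ⟨h1, h2⟩ := hTX x hx
    exact hpos x h1 h2
  have hvv : v = v' := by
    funext p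
    have a1 := congrFun he p
    unfold fl at a1
    rw [himg] at a1
    split_ifs at a1 with c
    · simpa using a1
    · exact a1
  subst hvv
  rfl

end Pool.Agent.H628R5.SN
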