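import Pool.Agent.H628R5.SN.Base
import Pool.Agent.H620R2.Gauge.NonNull
import Pool.Agent.H620R2.Gauge2.Null
import Pool.Agent.H620R2.Gauge.Y
import Pool.Agent.H620R2.Gauge.Cover
import Pool.Agent.H628R5.SN.F_FLI

namespace Pool.Agent.H628R5.SN

open Pool.Agent.NPC Pool.Agent.H620R2.Gauge Finset H568R2 Pool.Agent.H676

theorem C4_tail {j j' : ℕ} {a b : List Bool}
    (h : a ++ false :: List.replicate j true = b ++ false :: List.replicate j' true) : j = j' := by
  have h1 := congrArg List.reverse h
  simp only [List.reverse_append, List.reverse_cons, List.reverse_replicate,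
    List.append_assoc] at h1
  have key : ∀ (j j' : ℕ) (c d : List Bool),
      List.replicate j true ++ ([false] ++ c) = List.replicate j' true ++ ([false] ++ d) →
      j = j' := by
    intro j
    induction j with
    | zero =>
      intro j' c d h
      cases j' with
      | zero => rfl
      | succ k => simp [List.replicate_succ] at h
    | succ j ih =>
      intro j' c d h
      cases j' with
      | zero => simp [List.replicate_succ] at h
      | succ k =>
        simp only [List.replicate_succ, List.cons_append, List.cons.injEq, true_and] at h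
        rw [ih k c d h]
  exact key _ _ _ _ h1

theorem C4_ent_step {n : ℕ} {x x' : Fin n → Bool} {j j' : ℕ} {y y' : Fin (side n) → Bool}
    {i i' : ℕ} (h : ent n x j y i = ent n x' j' y' i') : j = j' := by
  unfold ent at h
  rw [← List.append_assoc, ← List.append_assoc] at h
  exact C4_tail h

theorem C4_ent_x {n : ℕ} {x x' : Fin n → Bool} {j j' : ℕ} {y y' : Fin (side n) → Bool}
    {i i' : ℕ} (h : ent n x j y i = ent n x' j' y' i') : x = x' := by
  unfold ent at h
  rw [List.append_assoc, List.append_assoc] at h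
  have h1 := List.append_inj_left h (by simp)
  exact List.ofFn_injective h1

theorem C4_ent_len (n : ℕ) (x : Fin n → Bool) (j : ℕ) (y : Fin (side n) → Bool) (i : ℕ) :
    (ent n x j y i).length = n + side n + (i + (j + 1)) := by
  unfold ent
  simp only [List.length_append, List.length_ofFn, List.length_replicate, List.length_cons]

theorem C4_idx_inj {y y' : List Bool} (h : idx y = idx y') : y = y' := by
  rw [← str_idx y, h, str_idx]

theorem C4_orc {N : ℕ} (v : Fin N → Bool) (y0 : List Bool) (h0 : idx y0 < N) (b : Bool)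
    (y : List Bool) (hy : y ≠ y0) :
    orc N (Function.update v ⟨idx y0, h0⟩ b) y = orc N v y := by
  unfold orc
  by_cases h : idx y < N
  · rw [dif_pos h, dif_pos h, Function.update_of_ne]
    intro h1
    exact hy (C4_idx_inj (Fin.mk.inj_iff.1 h1))
  · rw [dif_neg h, dif_neg h]

open Classical in
theorem C4_main {n N r : ℕ} (hn : 2 ≤ n) (hN : 2 ^ (2 * n + 2 * side n + 3) ≤ N)
    (Qs : (Fin n → Bool) → ℕ → (Fin N → Bool) → Finset (List Bool))
    (hloc : ∀ x i v v', (∀ i' < i, ∀ y ∈ Qs x i' v, orc N v y = orc N v' y) →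
      Qs x i v = Qs x i v') (G : (Fin n → Bool) → (Fin N → Bool) → Bool)
    (hG : ∀ x v v', (∀ i < r, ∀ y ∈ Qs x i v, orc N v y = orc N v' y) → G x v = G x v') :
    (univ.filter (fun v : Fin N → Bool => (∀ x, chainF (orc N v) n x = G x v) ∧
      2 ^ (n - 1) ≤ (univ.filter (fun x : Fin n → Bool =>
      ¬ ∃ i < r, ∃ x', ∃ k < side n,
        ent n x (n - 1) (chain n (orc N v) x (n - 1)) k ∈ Qs x' i v)).card)).card *
      2 ^ 2 ^ (n - 1) ≤ 2 ^ N := by
  have hside : 0 < side n := by unfold side; positivity
  have hlt : ∀ (x : Fin n → Bool) (y : Fin (side n) → Bool), idx (ent n x (n - 1) y 0) < N := by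
    intro x y
    have h1 := idx_lt (ent n x (n - 1) y 0)
    rw [C4_ent_len] at h1
    have h2 : 2 ^ (n + side n + (0 + (n - 1 + 1)) + 1) ≤ 2 ^ (2 * n + 2 * side n + 3) :=
      Nat.pow_le_pow_right (by norm_num) (by omega)
    omega
  let y0 : (Fin n → Bool) → (Fin N → Bool) → List Bool := fun x v =>
    ent n x (n - 1) (chain n (orc N v) x (n - 1)) 0
  let pos : (Fin n → Bool) → (Fin N → Bool) → Fin N := fun x v => ⟨idx (y0 x v), hlt _ _⟩
  let good : (Fin n → Bool) → (Fin N → Bool) → Prop := fun x v =>
    ¬ ∃ i < r, ∃ x', ∃ k < side n,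
        ent n x (n - 1) (chain n (orc N v) x (n - 1)) k ∈ Qs x' i v
  have hflip : ∀ v, ∀ x ∈ (univ : Finset (Fin n → Bool)), good x v →
      ∀ x' ∈ (univ : Finset (Fin n → Bool)),
      (good x' (Function.update v (pos x v) (!v (pos x v))) ↔ good x' v) ∧
      (good x' v → pos x' (Function.update v (pos x v) (!v (pos x v))) = pos x' v) ∧
      G x' (Function.update v (pos x v) (!v (pos x v))) = G x' v := by
    intro v x _ hg x' _
    set v' := Function.update v (pos x v) (!v (pos x v)) with hv'
    have horc : ∀ y, y ≠ y0 x v → orc N v' y = orc N v y := fun y hy =>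
      C4_orc v (y0 x v) (hlt _ _) _ y hy
    -- the chains
    have hch : ∀ z : Fin n → Bool, ∀ j, j ≤ n - 1 →
        chain n (orc N v') z j = chain n (orc N v) z j := by
      intro z j
      induction j with
      | zero => intro _; rfl
      | succ j ih =>
        intro hj
        have h1 := ih (by omega)
        funext i
        show orc N v' (ent n z j (chain n (orc N v') z j) i) =
          orc N v (ent n z j (chain n (orc N v) z j) i)
        rw [h1]
        apply horc
        intro h2
        have h3 := C4_ent_step h2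
        omega
    -- the questions
    have hQ : ∀ z : Fin n → Bool, ∀ i, i < r → Qs z i v' = Qs z i v := by
      intro z i
      induction i using Nat.strong_induction_on with
      | _ i ih =>
        intro hi
        refine hloc z i v' v fun i' hi' y hy => ?_
        rw [ih i' hi' (by omega)] at hy
        apply horc
        rintro rfl
        exact hg ⟨i', by omega, z, 0, hside, hy⟩
    refine ⟨?_, fun _ => ?_, ?_⟩
    · show (¬ _) ↔ (¬ _)
      rw [not_iff_not, hch x' (n - 1) le_rfl]
      constructor
      · rintro ⟨i, hi, z, k, hk, h⟩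
        exact ⟨i, hi, z, k, hk, by rw [← hQ z i hi]; exact h⟩
      · rintro ⟨i, hi, z, k, hk, h⟩
        exact ⟨i, hi, z, k, hk, by rw [hQ z i hi]; exact h⟩
    · apply Fin.ext
      show idx (ent n x' (n - 1) (chain n (orc N v') x' (n - 1)) 0) =
        idx (ent n x' (n - 1) (chain n (orc N v) x' (n - 1)) 0)
      rw [hch x' (n - 1) le_rfl]
    · refine hG x' v' v fun i hi y hy => ?_
      rw [hQ x' i hi] at hy
      apply horc
      rintro rfl
      exact hg ⟨i, hi, x', 0, hside, hy⟩
  have hmain := flip_general (I := Fin N) (univ : Finset (Fin n → Bool)) pos good G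
    (2 ^ (n - 1)) (fun v x _ x' _ _ _ h => by
      have h1 : idx (y0 x v) = idx (y0 x' v) := Fin.mk.inj_iff.1 h
      exact C4_ent_x (C4_idx_inj h1)) hflip
  rw [Fintype.card_fin] at hmain
  refine le_trans (Nat.mul_le_mul_right _ (Finset.card_le_card fun v hv => ?_)) hmain
  obtain ⟨-, hv1, hv2⟩ := Finset.mem_filter.1 hv
  simp only [Finset.mem_filter, Finset.mem_univ, true_and]
  refine ⟨fun x _ _ => ?_, ?_⟩
  · rw [← hv1 x]
    show orc N v (y0 x v) = v (pos x v)
    unfold orc
    rw [dif_pos (hlt _ _)]
  · refine le_trans hv2 (le_of_eq ?_)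
    congr 1
    ext x
    simp only [Finset.mem_filter, Finset.mem_univ, true_and]
    exact Iff.rfl

-- C4
theorem few_goodC {n N r : ℕ} (hn : 2 ≤ n) (hN : 2 ^ (2 * n + 2 * side n + 3) ≤ N)
    (Qs : (Fin n → Bool) → ℕ → (Fin N → Bool) → Finset (List Bool))
    (hloc : ∀ x i v v', (∀ i' < i, ∀ y ∈ Qs x i' v, orc N v y = orc N v' y) →
      Qs x i v = Qs x i v') (G : (Fin n → Bool) → (Fin N → Bool) → Bool)
    (hG : ∀ x v v', (∀ i < r, ∀ y ∈ Qs x i v, orc N v y = orc N v' y) → G x v = G x v') :
    (univ.filter (fun v : Fin N → Bool => (∀ x, chainF (orc N v) n x = G x v) ∧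
      2 ^ (n - 1) ≤ (univ.filter (fun x : Fin n → Bool =>
      ¬ ∃ i < r, ∃ x', ∃ k < side n,
        ent n x (n - 1) (chain n (orc N v) x (n - 1)) k ∈ Qs x' i v)).card)).card *
      2 ^ 2 ^ (n - 1) ≤ 2 ^ N := by
  have h := C4_main hn hN Qs hloc G hG
  convert h

end Pool.Agent.H628R5.SN

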