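import Pool.Agent.H628R5.SN.Base
import Pool.Agent.H620R2.Gauge.NonNull
import Pool.Agent.H620R2.Gauge2.Null
import Pool.Agent.H620R2.Gauge.Y
import Pool.Agent.H620R2.Gauge.Cover
import Pool.Agent.H628R5.SN.F_C4
import Pool.Agent.H628R5.SN.F_C3

/-! Task C5: bound for the chain. -/

namespace Pool.Agent.H628R5.SN

open Pool.Agent.NPC Pool.Agent.H620R2.Gauge Finset H568R2 Pool.Agent.H676 Pool.Agent.H628R5.SN
open Filter (atTop)

open Classical in
theorem chain_bound {n N r q : ℕ} (hn : 2 ≤ n) (hN : 2 ^ (2 * n + 2 * side n + 3) ≤ N)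
    (hr : r < n) (Qs : (Fin n → Bool) → ℕ → (Fin N → Bool) → Finset (List Bool))
    (hloc : ∀ x i v v', (∀ i' < i, ∀ y ∈ Qs x i' v, orc N v y = orc N v' y) →
      Qs x i v = Qs x i v') (hq : ∀ x v, ∑ i ∈ range r, (Qs x i v).card ≤ q)
    (hs : 2 ^ 10 * (r * n * (4 * q)) ≤ 2 ^ side n)
    (G : (Fin n → Bool) → (Fin N → Bool) → Bool)
    (hG : ∀ x v v', (∀ i < r, ∀ y ∈ Qs x i v, orc N v y = orc N v' y) → G x v = G x v') :
    Ex unif (fun v : Fin N → Bool =>
      if ∀ x, chainF (orc N v) n x = G x v then (1 : ℝ) else 0) ≤ 2 / 2 ^ 2 ^ (n - 1) := by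
  have h1 := many_badC hn hN hr Qs hloc hq hs
  have h2 := few_goodC hn hN Qs hloc G hG
  set B := univ.filter (fun v : Fin N → Bool => 2 ^ (n - 1) ≤
      (univ.filter (fun x : Fin n → Bool => ∃ i < r, ∃ x', ∃ k < side n,
        ent n x (n - 1) (chain n (orc N v) x (n - 1)) k ∈ Qs x' i v)).card) with hB
  set D := univ.filter (fun v : Fin N → Bool => (∀ x, chainF (orc N v) n x = G x v) ∧
      2 ^ (n - 1) ≤ (univ.filter (fun x : Fin n → Bool => ¬ ∃ i < r, ∃ x', ∃ k < side n,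
        ent n x (n - 1) (chain n (orc N v) x (n - 1)) k ∈ Qs x' i v)).card) with hD
  have h2n : 2 ^ n = 2 * 2 ^ (n - 1) := by
    obtain ⟨m, rfl⟩ : ∃ m, n = m + 1 := ⟨n - 1, by omega⟩
    rw [Nat.add_sub_cancel, pow_succ]
    ring
  have hsub : (univ.filter (fun v : Fin N → Bool => ∀ x, chainF (orc N v) n x = G x v)) ⊆
      B ∪ D := by
    intro v hv
    rw [Finset.mem_filter] at hv
    have hsum : (univ.filter (fun x : Fin n → Bool => ∃ i < r, ∃ x', ∃ k < side n,
        ent n x (n - 1) (chain n (orc N v) x (n - 1)) k ∈ Qs x' i v)).card +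
        (univ.filter (fun x : Fin n → Bool => ¬ ∃ i < r, ∃ x', ∃ k < side n,
        ent n x (n - 1) (chain n (orc N v) x (n - 1)) k ∈ Qs x' i v)).card = 2 ^ n := by
      rw [Finset.card_filter_add_card_filter_not]
      simp
    rw [Finset.mem_union, hB, hD, Finset.mem_filter, Finset.mem_filter]
    by_cases hc : 2 ^ (n - 1) ≤ (univ.filter (fun x : Fin n → Bool => ∃ i < r, ∃ x',
        ∃ k < side n, ent n x (n - 1) (chain n (orc N v) x (n - 1)) k ∈ Qs x' i v)).card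
    · exact Or.inl ⟨Finset.mem_univ _, hc⟩
    · exact Or.inr ⟨Finset.mem_univ _, hv.2, by omega⟩
  have hcard := (Finset.card_le_card hsub).trans (Finset.card_union_le B D)
  have hE : Ex unif (fun v : Fin N → Bool =>
      if ∀ x, chainF (orc N v) n x = G x v then (1 : ℝ) else 0) =
      (((univ.filter (fun v : Fin N → Bool =>
        ∀ x, chainF (orc N v) n x = G x v)).card : ℕ) : ℝ) * 2 ^ (-(N : ℝ)) := by
    have h := card_of_Ex (N := N) (fun v => ∀ x, chainF (orc N v) n x = G x v)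
    convert h.symm
  rw [hE]
  have h1' : ((B.card : ℕ) : ℝ) * 2 ^ 2 ^ n ≤ 2 ^ N := by exact_mod_cast h1
  have h2' : ((D.card : ℕ) : ℝ) * 2 ^ 2 ^ (n - 1) ≤ 2 ^ N := by exact_mod_cast h2
  have hcard' : (((univ.filter (fun v : Fin N → Bool =>
      ∀ x, chainF (orc N v) n x = G x v)).card : ℕ) : ℝ) ≤ B.card + D.card := by
    exact_mod_cast hcard
  set u : ℕ := 2 ^ (n - 1) with hu
  have hu1 : (1 : ℝ) ≤ 2 ^ u := one_le_pow₀ (by norm_num)
  have hN0 : (0 : ℝ) < 2 ^ N := by positivity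
  have hB1 : (B.card : ℝ) * 2 ^ u ≤ 2 ^ N := by
    refine le_trans ?_ h1'
    refine mul_le_mul_of_nonneg_left ?_ (by positivity)
    exact pow_le_pow_right₀ (by norm_num) (by omega)
  have hfin : (((univ.filter (fun v : Fin N → Bool =>
      ∀ x, chainF (orc N v) n x = G x v)).card : ℕ) : ℝ) * 2 ^ u ≤ 2 * 2 ^ N := by
    nlinarith
  rw [Real.rpow_neg (by norm_num), Real.rpow_natCast, le_div_iff₀ (by positivity)]
  have : (((univ.filter (fun v : Fin N → Bool =>
      ∀ x, chainF (orc N v) n x = G x v)).card : ℕ) : ℝ) * ((2 : ℝ) ^ N)⁻¹ * 2 ^ u =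
      ((((univ.filter (fun v : Fin N → Bool =>
      ∀ x, chainF (orc N v) n x = G x v)).card : ℕ) : ℝ) * 2 ^ u) / 2 ^ N := by
    field_simp
  rw [this, div_le_iff₀ hN0]
  exact hfin

end Pool.Agent.H628R5.SN

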