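import Pool.Agent.H628R5.SN.Base
import Pool.Agent.H620R2.Gauge.NonNull
import Pool.Agent.H620R2.Gauge2.Null
import Pool.Agent.H620R2.Gauge.Y
import Pool.Agent.H620R2.Gauge.Cover
import Pool.Agent.H620R2.Gauge.S
import Pool.Agent.H620R2.Gauge.C

/-! DSC: the description determines the output. -/

namespace Pool.Agent.H628R5.SN

open Pool.Agent.NPC Pool.Agent.H620R2.Gauge Finset H568R2 Pool.Agent.H676

private theorem dsc_rep : ∀ (a b : ℕ) (l l' : List Bool),
    List.replicate a true ++ false :: l = List.replicate b true ++ false :: l' → a = b ∧ l = l' := by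
  intro a
  induction a with
  | zero =>
    intro b l l' h
    cases b with
    | zero => simpa using h
    | succ b => simp [List.replicate_succ] at h
  | succ a ih =>
    intro b l l' h
    cases b with
    | zero => simp [List.replicate_succ] at h
    | succ b =>
      rw [List.replicate_succ, List.replicate_succ, List.cons_append, List.cons_append] at h
      obtain ⟨h1, h2⟩ := ih b l l' (List.cons.inj h).2
      exact ⟨by rw [h1], h2⟩

theorem descr_out {n w d m n' w' d' m' : ℕ} (C : OC n w d m) (x : Fin n → Bool)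
    (C' : OC n' w' d' m') (x' : Fin n' → Bool) (h : descr C x = descr C' x') (A : Oracle) :
    C.out A x = C'.out A x' := by
  unfold descr at h
  obtain ⟨rfl, h⟩ := dsc_rep _ _ _ _ h
  obtain ⟨rfl, h⟩ := dsc_rep _ _ _ _ h
  obtain ⟨rfl, h⟩ := dsc_rep _ _ _ _ h
  obtain ⟨rfl, h⟩ := dsc_rep _ _ _ _ h
  have hlt : ∀ D : OC n w d m, ((Fintype.equivFin (OC n w d m) D : Fin _) : ℕ) <
      2 ^ bitsC n w d m := fun D =>
    (Fintype.equivFin (OC n w d m) D).2.trans_le (Nat.le_pow_clog (by norm_num) _)
  obtain ⟨h1, h2⟩ := List.append_inj h (by rw [length_bitsOf, length_bitsOf])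
  have h3 := bitsOf_inj (hlt C) (hlt C') h1
  have h4 : C = C' := (Fintype.equivFin (OC n w d m)).injective (Fin.ext h3)
  have h5 : x = x' := List.ofFn_injective h2
  rw [h4, h5]

end Pool.Agent.H628R5.SN

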