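import Pool.Agent.H628R5.SN.Base

/-! The layers of a circuit. -/

namespace Pool.Agent.H628R5.SN

open Pool.Agent.NPC Pool.Agent.H620R2.Gauge Finset H568R2 Pool.Agent.H676

theorem length_query {n w m : ℕ} (x : Fin n → Bool) (v : Fin w → Bool) (k : Fin (m + 1))
    (s : Fin m → Src n w) : (query x v k s).length ≤ m := by
  unfold query
  rw [List.length_take, List.length_ofFn]
  exact min_le_right _ _

theorem layer_short {n w d m : ℕ} (C : OC n w d m) (x : Fin n → Bool) (A A' : Oracle)
    (h : ∀ y : List Bool, y.length ≤ m → A y = A' y) (j : ℕ) :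
    C.layer A x j = C.layer A' x j := by
  induction j with
  | zero => rfl
  | succ j ih =>
    unfold OC.layer
    rw [ih]
    split_ifs with hj
    · funext i
      cases hg : C ⟨j, hj⟩ i with
      | and a b => rfl
      | or a b => rfl
      | not a => rfl
      | ask k s =>
        show A _ = A' _
        exact h _ (length_query _ _ _ _)
    · rfl

theorem out_short {n w d m : ℕ} (C : OC n w d m) (x : Fin n → Bool) (A A' : Oracle)
    (h : ∀ y : List Bool, y.length ≤ m → A y = A' y) : C.out A x = C.out A' x := by
  unfold OC.out
  rw [layer_short C x A A' h d]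

end Pool.Agent.H628R5.SN
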