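import Pool.Agent.H628R5.SN.Base
import Pool.Agent.H620R2.Gauge.NonNull
import Pool.Agent.H620R2.Gauge2.Null
import Pool.Agent.H620R2.Gauge.Y
import Pool.Agent.H620R2.Gauge.Cover
import Pool.Agent.H628R5.SN.F_DSC
import Pool.Agent.H628R5.SN.F_SHO
import Pool.Agent.H620R2.Gauge.C

/-! Task COD: coding. -/

namespace Pool.Agent.H628R5.SN

open Pool.Agent.NPC Pool.Agent.H620R2.Gauge Finset H568R2 Pool.Agent.H676 Pool.Agent.H628R5.SN
open Filter (atTop)

/-- the language which is coded -/
def cod_V (_e : ℕ) (A : Oracle) (y : List Bool) : Prop :=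
  ∃ (n w d m : ℕ) (C : OC n w d m) (x : Fin n → Bool), y = descr C x ∧ C.out A x = true

theorem cod_length {n w d m : ℕ} (C : OC n w d m) (x : Fin n → Bool) :
    m < (descr C x).length := by
  unfold descr
  simp only [List.length_append, List.length_replicate, List.length_cons]
  omega

theorem cod_local (K : ℕ) (e : ℕ) (A A' : Oracle) (y : List Bool)
    (h : ∀ z : List Bool, z.length < (code (RR K) e y).length → A z = A' z) :
    cod_V e A y ↔ cod_V e A' y := by
  have hlen : y.length < (code (RR K) e y).length := by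
    unfold code
    simp only [List.length_append, List.length_replicate, List.length_cons]
    omega
  have key : ∀ (n w d m : ℕ) (C : OC n w d m) (x : Fin n → Bool), y = descr C x →
      C.out A x = C.out A' x := by
    intro n w d m C x hy
    apply out_short C x A A'
    intro z hz
    apply h
    have := cod_length C x
    rw [← hy] at this
    omega
  constructor
  · rintro ⟨n, w, d, m, C, x, hy, hC⟩
    exact ⟨n, w, d, m, C, x, hy, by rw [← key n w d m C x hy]; exact hC⟩
  · rintro ⟨n, w, d, m, C, x, hy, hC⟩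
    exact ⟨n, w, d, m, C, x, hy, by rw [key n w d m C x hy]; exact hC⟩

-- COD
theorem exists_codingC (K : ℕ) (hK : 1 ≤ K) : ∃ Φ : Oracle → Oracle,
    (∀ B y, (∀ e x, y ≠ code (RR K) e x) → Φ B y = B y) ∧
    ∀ (B : Oracle) (n w d m : ℕ) (C : OC n w d m) (x : Fin n → Bool),
      Φ B (code (RR K) 0 (descr C x)) = C.out (Φ B) x := by
  refine ⟨CC.Phi (RR K) cod_V, fun B y h => CC.Phi_not _ _ B y h, ?_⟩
  intro B n w d m C x
  have h := CC.Phi_code (RR K) cod_V B
    (fun e A A' y hy => cod_local K e A A' y hy) 0 (descr C x)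
  rw [Bool.eq_iff_iff, h]
  constructor
  · rintro ⟨n', w', d', m', C', x', hy, hC⟩
    rw [descr_out C x C' x' hy (CC.Phi (RR K) cod_V B)]
    exact hC
  · intro hC
    exact ⟨n, w, d, m, C, x, rfl, hC⟩

end Pool.Agent.H628R5.SN

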