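import Pool.Agent.H628R5.SN.Base
import Pool.Agent.H620R2.Gauge.NonNull
import Pool.Agent.H620R2.Gauge2.Null
import Pool.Agent.H620R2.Gauge.Y
import Pool.Agent.H620R2.Gauge.Cover

namespace Pool.Agent.H628R5.SN

open Pool.Agent.NPC Pool.Agent.H620R2.Gauge Finset H568R2 Pool.Agent.H676

theorem CSC_side_pos (n : ℕ) : 0 < side n := by unfold side; positivity

/-- the sources -/
def CSC_src (n i : ℕ) (m : ℕ) (p : Fin m) : Src n (side n) :=
  if h : (p : ℕ) < n then .lit ⟨p, h⟩ true
  else if h' : (p : ℕ) - n < side n then .prev ⟨p - n, h'⟩
  else .const (decide ((p : ℕ) ≠ n + side n + i))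

/-- the lengths -/
def CSC_k (n i j : ℕ) : ℕ := n + side n + (i + (j + 1))

theorem CSC_query {n m : ℕ} (x : Fin n → Bool) (y : Fin (side n) → Bool) (i j : ℕ)
    (hk : CSC_k n i j < m + 1) :
    query x y ⟨CSC_k n i j, hk⟩ (CSC_src n i m) = ent n x j y i := by
  unfold query ent
  have hk' : n + side n + (i + (j + 1)) ≤ m := by unfold CSC_k at hk; omega
  apply List.ext_getElem
  · simp only [List.length_take, List.length_ofFn, List.length_append, List.length_replicate,
      List.length_cons]
    unfold CSC_k
    omega
  · intro p h1 h2
    have h3 : p < n + side n + (i + (j + 1)) := by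
      simp only [List.length_append, List.length_ofFn, List.length_replicate,
        List.length_cons] at h2
      omega
    rw [List.getElem_take, List.getElem_ofFn]
    unfold CSC_src
    by_cases c1 : p < n
    · rw [List.getElem_append_left (by
        simp only [List.length_append, List.length_ofFn]; omega),
        List.getElem_append_left (by simp only [List.length_ofFn]; omega)]
      simp only [c1, dif_pos, Src.val, List.getElem_ofFn]
      cases x ⟨p, c1⟩ <;> rfl
    · by_cases c2 : p - n < side n
      · rw [List.getElem_append_left (by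
          simp only [List.length_append, List.length_ofFn]; omega),
          List.getElem_append_right (by simp only [List.length_ofFn]; omega)]
        simp only [c1, c2, dif_pos, dif_neg, not_false_iff, Src.val, List.getElem_ofFn,
          List.length_ofFn]
      · rw [List.getElem_append_right (by
          simp only [List.length_append, List.length_ofFn]; omega)]
        simp only [c1, c2, dif_neg, not_false_iff, Src.val, List.length_ofFn,
          List.length_append]
        by_cases c3 : p < n + side n + i
        · rw [List.getElem_append_left (by simp only [List.length_replicate]; omega),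
            List.getElem_replicate]
          simp only [decide_eq_true_eq]
          omega
        · rw [List.getElem_append_right (by simp only [List.length_replicate]; omega)]
          by_cases c4 : p = n + side n + i
          · subst c4
            simp
          · rw [List.getElem_cons]
            rw [dif_neg (by simp only [List.length_replicate]; omega), List.getElem_replicate]
            simp only [decide_eq_true_eq]
            exact c4

theorem CSC_pow {a : ℕ} : (a + 1) ^ 2 ≤ a ^ 10 + 10 := by
  rcases Nat.lt_or_ge a 2 with h | h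
  · interval_cases a <;> norm_num
  · have h1 : 2 ^ 8 ≤ a ^ 8 := Nat.pow_le_pow_left h 8
    have h2 : a ^ 10 = a ^ 8 * a ^ 2 := by rw [← pow_add]
    have h3 : 2 ^ 8 * a ^ 2 ≤ a ^ 8 * a ^ 2 := Nat.mul_le_mul_right _ h1
    nlinarith

theorem CSC_pow' {a : ℕ} : 2 * a + 2 * (a + 1) ^ 2 + 1 ≤ a ^ 10 + 10 := by
  rcases Nat.lt_or_ge a 2 with h | h
  · interval_cases a <;> norm_num
  · have h1 : 2 ^ 8 ≤ a ^ 8 := Nat.pow_le_pow_left h 8
    have h2 : a ^ 10 = a ^ 8 * a ^ 2 := by rw [← pow_add]
    have h3 : 2 ^ 8 * a ^ 2 ≤ a ^ 8 * a ^ 2 := Nat.mul_le_mul_right _ h1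
    nlinarith

theorem chainF_inSC (A : Oracle) : InSC A (chainF A) := by
  refine ⟨10, fun n => ⟨side n, (n - 1) + 1, 2 * n + 2 * side n + 1, ?_, ?_, ?_, ?_⟩⟩
  · unfold side
    exact CSC_pow
  · have : n ≤ n ^ 10 := Nat.le_self_pow (by norm_num) n
    omega
  · have h1 : side n ≤ (n + 1) ^ 2 := by
      unfold side
      exact Nat.pow_le_pow_left (Nat.succ_le_succ (Nat.log_le_self 2 n)) 2
    have h2 := CSC_pow' (a := n)
    omega
  · have hk : ∀ (j : Fin ((n - 1) + 1)) (i : Fin (side n)),
        CSC_k n i j < (2 * n + 2 * side n + 1) + 1 := by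
      intro j i
      have h1 := j.2
      have h2 := i.2
      unfold CSC_k
      omega
    let C : OC n (side n) ((n - 1) + 1) (2 * n + 2 * side n + 1) := fun j i =>
      .ask ⟨CSC_k n i j, hk j i⟩ (CSC_src n i _)
    refine ⟨C, fun x => ?_⟩
    have hl : ∀ j, j ≤ (n - 1) + 1 → C.layer A x j = chain n A x j := by
      intro j
      induction j with
      | zero => intro _; rfl
      | succ j ih =>
        intro hj
        have hj' : j < (n - 1) + 1 := hj
        funext i
        rw [OC.layer, dif_pos hj', chain]
        show A (query x (C.layer A x j) ⟨CSC_k n i j, hk ⟨j, hj'⟩ i⟩ (CSC_src n i _)) = _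
        rw [CSC_query, ih (le_of_lt hj')]
    unfold OC.out
    rw [dif_pos (CSC_side_pos n), hl _ le_rfl]
    rfl

end Pool.Agent.H628R5.SN

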