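import Pool.Agent.H628R5.SN.Base
import Pool.Agent.H620R2.Gauge.S

/-! The main step. -/

namespace Pool.Agent.H628R5.SN

open Pool.Agent.NPC Pool.Agent.H620R2.Gauge Finset H568R2 Pool.Agent.H676

namespace HITB

theorem ones_inj : ∀ (i j i' j' : ℕ),
    List.replicate i true ++ false :: List.replicate j true =
      List.replicate i' true ++ false :: List.replicate j' true → i = i' ∧ j = j' := by
  intro i
  induction i with
  | zero =>
    intro j i' j' h
    cases i' with
    | zero =>
      simp only [List.replicate_zero, List.nil_append, List.cons.injEq, true_and] at h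
      have := congrArg List.length h
      simpa using this
    | succ i' => simp [List.replicate_succ] at h
  | succ i ih =>
    intro j i' j' h
    cases i' with
    | zero => simp [List.replicate_succ] at h
    | succ i' =>
      simp only [List.replicate_succ, List.cons_append, List.cons.injEq, true_and] at h
      obtain ⟨h1, h2⟩ := ih j i' j' h
      exact ⟨by rw [h1], h2⟩

theorem ent_inj {n : ℕ} {x x' : Fin n → Bool} {j j' : ℕ} {y y' : Fin (side n) → Bool} {i i' : ℕ}
    (h : ent n x j y i = ent n x' j' y' i') : x = x' ∧ y = y' ∧ i = i' ∧ j = j' := by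
  unfold ent at h
  rw [List.append_assoc, List.append_assoc] at h
  obtain ⟨h1, h2⟩ := List.append_inj h (by simp)
  obtain ⟨h3, h4⟩ := List.append_inj h2 (by simp)
  obtain ⟨h5, h6⟩ := ones_inj _ _ _ _ h4
  exact ⟨List.ofFn_injective h1, List.ofFn_injective h3, h5, h6⟩

theorem ent_prefix (n : ℕ) (x : Fin n → Bool) (j : ℕ) (y : Fin (side n) → Bool) (i : ℕ) :
    List.ofFn x <+: ent n x j y i := by
  unfold ent
  rw [List.append_assoc]
  exact List.prefix_append _ _

theorem ent_lt {n N : ℕ} (hN : 2 ^ (2 * n + 2 * side n + 3) ≤ N) (x : Fin n → Bool) {j : ℕ}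
    (hj : j < n) (y : Fin (side n) → Bool) {i : ℕ} (hi : i < side n) :
    idx (ent n x j y i) < N := by
  have h1 := idx_lt (ent n x j y i)
  have h2 : (ent n x j y i).length ≤ 2 * n + 2 * side n := by
    unfold ent
    simp only [List.length_append, List.length_ofFn, List.length_cons, List.length_replicate]
    omega
  have h3 : 2 ^ ((ent n x j y i).length + 1) ≤ 2 ^ (2 * n + 2 * side n + 3) :=
    Nat.pow_le_pow_right (by norm_num) (by omega)
  omega

theorem chain_congr {n : ℕ} {A A' : Oracle} {x : Fin n → Bool} {J : ℕ}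
    (h : ∀ j < J, ∀ y, ∀ i < side n, A (ent n x j y i) = A' (ent n x j y i)) :
    ∀ j ≤ J, chain n A x j = chain n A' x j := by
  intro j
  induction j with
  | zero => intro _; rfl
  | succ j ih =>
    intro hj
    have h1 := ih (by omega)
    funext i
    show A (ent n x j (chain n A x j) i) = A' (ent n x j (chain n A' x j) i)
    rw [← h1]
    exact h j (by omega) _ _ i.2

variable {n N r q : ℕ}

/-- all questions of the level `i` -/
def HH (Qs : (Fin n → Bool) → ℕ → (Fin N → Bool) → Finset (List Bool)) (i : ℕ)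
    (v : Fin N → Bool) : Finset (List Bool) := univ.biUnion (fun x' => Qs x' i v)

/-- some later entry is asked at the level `i` -/
def PP (Qs : (Fin n → Bool) → ℕ → (Fin N → Bool) → Finset (List Bool)) (x : Fin n → Bool)
    (v : Fin N → Bool) (i j : ℕ) : Prop :=
  i + 1 ≤ j ∧ j ≤ n - 1 ∧ ∃ k < side n, ent n x j (chain n (orc N v) x j) k ∈ HH Qs i v

open Classical in
/-- the level -/
noncomputable def II (Qs : (Fin n → Bool) → ℕ → (Fin N → Bool) → Finset (List Bool))
    (x : Fin n → Bool) (v : Fin N → Bool) : ℕ :=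
  if h : ∃ i, ∃ j, PP Qs x v i j then Nat.find h else 0

open Classical in
/-- the step -/
noncomputable def JJ (Qs : (Fin n → Bool) → ℕ → (Fin N → Bool) → Finset (List Bool))
    (x : Fin n → Bool) (v : Fin N → Bool) : ℕ :=
  if h : ∃ j, PP Qs x v (II Qs x v) j then h.choose else 0

open Classical in
/-- the candidates for the value at the step `j` -/
noncomputable def cand (x : Fin n → Bool) (H : Finset (List Bool)) (j : ℕ) :
    Finset (Fin (side n) → Bool) :=
  univ.filter (fun y => ∃ k < side n, ent n x j y k ∈ H)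

open Classical in
/-- the number of an element of a finite set -/
noncomputable def ix {α : Type} (T : Finset α) (y : α) : ℕ :=
  if h : y ∈ T then (T.equivFin ⟨y, h⟩ : ℕ) else 0

theorem ix_lt {α : Type} {T : Finset α} {y : α} (h : y ∈ T) : ix T y < T.card := by
  unfold ix
  rw [dif_pos h]
  exact (T.equivFin ⟨y, h⟩).2

theorem ix_inj {α : Type} {T : Finset α} {y y' : α} (h : y ∈ T) (h' : y' ∈ T)
    (he : ix T y = ix T y') : y = y' := by
  unfold ix at he
  rw [dif_pos h, dif_pos h'] at he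
  have h1 := T.equivFin.injective (Fin.ext he)
  simpa using h1

/-- the place -/
noncomputable def plc (Qs : (Fin n → Bool) → ℕ → (Fin N → Bool) → Finset (List Bool))
    (x : Fin n → Bool) (v : Fin N → Bool) (k : ℕ) : List Bool :=
  ent n x (JJ Qs x v - 1) (chain n (orc N v) x (JJ Qs x v - 1)) k

theorem II_JJ {Qs : (Fin n → Bool) → ℕ → (Fin N → Bool) → Finset (List Bool)}
    {x : Fin n → Bool} {v : Fin N → Bool} (h : ∃ i, ∃ j, PP Qs x v i j) :
    PP Qs x v (II Qs x v) (JJ Qs x v) := by
  classical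
  have h1 : II Qs x v = Nat.find h := by
    unfold II
    rw [dif_pos h]
  have h2 : ∃ j, PP Qs x v (II Qs x v) j := by
    rw [h1]
    exact Nat.find_spec h
  unfold JJ
  rw [dif_pos h2]
  exact h2.choose_spec

theorem II_min {Qs : (Fin n → Bool) → ℕ → (Fin N → Bool) → Finset (List Bool)}
    {x : Fin n → Bool} {v : Fin N → Bool} {i j : ℕ} (h : PP Qs x v i j) :
    II Qs x v ≤ i := by
  classical
  have h0 : ∃ i, ∃ j, PP Qs x v i j := ⟨i, j, h⟩
  have h1 : II Qs x v = Nat.find h0 := by
    unfold II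
    rw [dif_pos h0]
  rw [h1]
  exact Nat.find_min' h0 ⟨j, h⟩

open Classical in
/-- the new oracle -/
noncomputable def ww (Qs : (Fin n → Bool) → ℕ → (Fin N → Bool) → Finset (List Bool))
    (S : Finset (Fin n → Bool)) (v : Fin N → Bool) (z : S → Fin (side n) → Bool) :
    Fin N → Bool := fun p =>
  if h : ∃ a : S × Fin (side n), str p = plc Qs a.1 v a.2 then z h.choose.1 h.choose.2 else v p

theorem orc_ww_place (hN : 2 ^ (2 * n + 2 * side n + 3) ≤ N)
    {Qs : (Fin n → Bool) → ℕ → (Fin N → Bool) → Finset (List Bool)}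
    {S : Finset (Fin n → Bool)} {v : Fin N → Bool} (z : S → Fin (side n) → Bool)
    (x : S) (k : Fin (side n)) (hJ : JJ Qs x v - 1 < n) :
    orc N (ww Qs S v z) (plc Qs x v k) = z x k := by
  classical
  have h1 : idx (plc Qs x v k) < N := ent_lt hN _ hJ _ k.2
  unfold orc
  rw [dif_pos h1]
  unfold ww
  have h2 : ∃ a : S × Fin (side n), str (idx (plc Qs x v k)) = plc Qs a.1 v a.2 :=
    ⟨(x, k), str_idx _⟩
  have h3 : ∃ a : S × Fin (side n),
      str ((⟨idx (plc Qs x v k), h1⟩ : Fin N) : ℕ) = plc Qs a.1 v a.2 := h2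
  rw [dif_pos h3]
  have h4 := h3.choose_spec
  have h5 : plc Qs (x : Fin n → Bool) v k = plc Qs (h3.choose.1 : Fin n → Bool) v h3.choose.2 := by
    rw [← h4]
    exact (str_idx _).symm
  obtain ⟨h6, _, h7, _⟩ := ent_inj h5
  have h8 : h3.choose.1 = x := Subtype.ext h6.symm
  have h9 : h3.choose.2 = k := Fin.ext h7.symm
  rw [h8, h9]

theorem orc_ww_other {Qs : (Fin n → Bool) → ℕ → (Fin N → Bool) → Finset (List Bool)}
    {S : Finset (Fin n → Bool)} {v : Fin N → Bool} (z : S → Fin (side n) → Bool)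
    (y : List Bool) (h : ∀ (x : S) (k : Fin (side n)), y ≠ plc Qs x v k) :
    orc N (ww Qs S v z) y = orc N v y := by
  classical
  unfold orc
  split_ifs with h1
  · unfold ww
    rw [dif_neg]
    rintro ⟨a, ha⟩
    apply h a.1 a.2
    rw [← ha]
    exact (str_idx _).symm
  · rfl

theorem chain_ww {Qs : (Fin n → Bool) → ℕ → (Fin N → Bool) → Finset (List Bool)}
    {S : Finset (Fin n → Bool)} {v : Fin N → Bool} (z : S → Fin (side n) → Bool) (x : S) :
    chain n (orc N (ww Qs S v z)) x (JJ Qs x v - 1) = chain n (orc N v) x (JJ Qs x v - 1) := by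
  apply chain_congr (J := JJ Qs x v - 1) _ _ le_rfl
  intro j hj y i hi
  apply orc_ww_other
  intro x' k he
  obtain ⟨h1, _, _, h4⟩ := ent_inj he
  rw [← h1] at h4
  omega

theorem main_inj (hN : 2 ^ (2 * n + 2 * side n + 3) ≤ N)
    (Qs : (Fin n → Bool) → ℕ → (Fin N → Bool) → Finset (List Bool))
    (hloc : ∀ x i v v', (∀ i' < i, ∀ y ∈ Qs x i' v, orc N v y = orc N v' y) →
      Qs x i v = Qs x i v') (S : Finset (Fin n → Bool)) (v1 v2 : Fin N → Bool)
    (z1 z2 : S → Fin (side n) → Bool)
    (h1 : ∀ x : S, ∃ i, ∃ j, PP Qs x v1 i j) (h2 : ∀ x : S, ∃ i, ∃ j, PP Qs x v2 i j)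
    (hw : ww Qs S v1 z1 = ww Qs S v2 z2) (hI : ∀ x : S, II Qs x v1 = II Qs x v2)
    (hJ : ∀ x : S, JJ Qs x v1 = JJ Qs x v2)
    (hx : ∀ x : S, ix (cand x (HH Qs (II Qs x v1) v1) (JJ Qs x v1))
        (chain n (orc N v1) x (JJ Qs x v1)) =
      ix (cand x (HH Qs (II Qs x v2) v2) (JJ Qs x v2)) (chain n (orc N v2) x (JJ Qs x v2))) :
    v1 = v2 ∧ z1 = z2 := by
  classical
  have hpl : ∀ (x : S) (k : ℕ), plc Qs x v1 k = plc Qs x v2 k := by
    intro x k
    unfold plc
    rw [← chain_ww z1 x, ← chain_ww z2 x, hw, hJ x]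
  have hJn : ∀ x : S, JJ Qs x v1 - 1 < n ∧ 1 ≤ JJ Qs x v1 := by
    intro x
    obtain ⟨a, b, _⟩ := II_JJ (h1 x)
    omega
  -- the contents of the places
  have hcont : ∀ (x : S) (k : Fin (side n)), HH Qs (II Qs x v1) v1 = HH Qs (II Qs x v1) v2 →
      orc N v1 (plc Qs x v1 k) = orc N v2 (plc Qs x v1 k) := by
    intro x k hH
    obtain ⟨a1, a2, k1, hk1, a3⟩ := II_JJ (h1 x)
    obtain ⟨b1, b2, k2, hk2, b3⟩ := II_JJ (h2 x)
    have hx' := hx x
    rw [← hI x, ← hJ x, ← hH] at hx'
    rw [← hI x, ← hJ x, ← hH] at b3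
    have hm1 : chain n (orc N v1) x (JJ Qs x v1) ∈
        cand (x : Fin n → Bool) (HH Qs (II Qs x v1) v1) (JJ Qs x v1) := by
      unfold cand
      rw [mem_filter]
      exact ⟨mem_univ _, k1, hk1, a3⟩
    have hm2 : chain n (orc N v2) x (JJ Qs x v1) ∈
        cand (x : Fin n → Bool) (HH Qs (II Qs x v1) v1) (JJ Qs x v1) := by
      unfold cand
      rw [mem_filter]
      exact ⟨mem_univ _, k2, hk2, b3⟩
    have hch := ix_inj hm1 hm2 hx'
    have hsucc : ∀ A : Oracle, ∀ J, 1 ≤ J → chain n A x J k = A (ent n x (J - 1) (chain n A x (J - 1)) k) := by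
      intro A J hJ1
      obtain ⟨J, rfl⟩ := Nat.exists_eq_add_of_le' hJ1
      rfl
    have e1 := hsucc (orc N v1) (JJ Qs x v1) (hJn x).2
    have e2 := hsucc (orc N v2) (JJ Qs x v1) (hJn x).2
    have e3 : plc Qs x v1 k = ent n x (JJ Qs x v1 - 1) (chain n (orc N v1) x (JJ Qs x v1 - 1)) k :=
      rfl
    have e4 : plc Qs x v1 k = ent n x (JJ Qs x v1 - 1) (chain n (orc N v2) x (JJ Qs x v1 - 1)) k := by
      rw [hpl x k]
      unfold plc
      rw [hJ x]
    calc orc N v1 (plc Qs x v1 k) = chain n (orc N v1) x (JJ Qs x v1) k := by rw [e1, e3]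
      _ = chain n (orc N v2) x (JJ Qs x v1) k := by rw [hch]
      _ = orc N v2 (plc Qs x v1 k) := by rw [e2, e4]
  have hoth : ∀ y : List Bool, (∀ (x : S) (k : Fin (side n)), y ≠ plc Qs x v1 k) →
      orc N v1 y = orc N v2 y := by
    intro y hy
    rw [← orc_ww_other z1 y hy, hw]
    apply orc_ww_other
    intro x k
    rw [← hpl x k]
    exact hy x k
  have hlev : ∀ l, ∀ x', Qs x' l v1 = Qs x' l v2 := by
    intro l
    induction l using Nat.strong_induction_on with
    | _ l ih =>
      intro x'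
      apply hloc
      intro i' hi' y hy
      by_cases hp : ∀ (x : S) (k : Fin (side n)), y ≠ plc Qs x v1 k
      · exact hoth y hp
      · push Not at hp
        obtain ⟨x, k, rfl⟩ := hp
        apply hcont
        have hII : II Qs x v1 ≤ i' := by
          by_contra hlt
          obtain ⟨a1, a2, a3⟩ := II_JJ (h1 x)
          have : PP Qs x v1 i' (JJ Qs x v1 - 1) := by
            refine ⟨by omega, by omega, k, k.2, ?_⟩
            unfold HH
            rw [mem_biUnion]
            exact ⟨x', mem_univ _, hy⟩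
          have := II_min this
          omega
        unfold HH
        apply Finset.biUnion_congr rfl
        intro x'' _
        exact ih _ (by omega) x''
  have hv : v1 = v2 := by
    funext p
    have hp1 : ∀ v : Fin N → Bool, orc N v (str p) = v p := by
      intro v
      unfold orc
      have : idx (str p) < N := by rw [idx_str]; exact p.2
      rw [dif_pos this]
      congr 1
      exact Fin.ext (idx_str _)
    rw [← hp1 v1, ← hp1 v2]
    by_cases hp : ∀ (x : S) (k : Fin (side n)), str p ≠ plc Qs x v1 k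
    · exact hoth _ hp
    · push Not at hp
      obtain ⟨x, k, hxk⟩ := hp
      rw [hxk]
      apply hcont
      unfold HH
      apply Finset.biUnion_congr rfl
      intro x'' _
      exact hlev _ x''
  refine ⟨hv, ?_⟩
  funext x k
  rw [← orc_ww_place hN z1 x k (hJn x).1]
  have := orc_ww_place hN z2 x k (Qs := Qs) (v := v2) (by rw [← hJ x]; exact (hJn x).1)
  rw [← this, ← hw, hpl x k]

end HITB

open HITB in
theorem hit {n N r q : ℕ} (hN : 2 ^ (2 * n + 2 * side n + 3) ≤ N) (hr : r < n)
    (Qs : (Fin n → Bool) → ℕ → (Fin N → Bool) → Finset (List Bool))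
    (hloc : ∀ x i v v', (∀ i' < i, ∀ y ∈ Qs x i' v, orc N v y = orc N v' y) →
      Qs x i v = Qs x i v') (S : Finset (Fin n → Bool)) :
    (univ.filter (fun v : Fin N → Bool => ∀ x ∈ S,
      (∃ i < r, ∃ x', ∃ k < side n,
        ent n x (n - 1) (chain n (orc N v) x (n - 1)) k ∈ Qs x' i v) ∧
      ((univ.biUnion (fun x' => (range r).biUnion (fun i => Qs x' i v))).filter
        (fun y => List.ofFn x <+: y)).card ≤ q)).card * 2 ^ (side n * S.card) ≤
      2 ^ N * (r * n * q) ^ S.card := by
  classical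
  set E := univ.filter (fun v : Fin N → Bool => ∀ x ∈ S,
      (∃ i < r, ∃ x', ∃ k < side n,
        ent n x (n - 1) (chain n (orc N v) x (n - 1)) k ∈ Qs x' i v) ∧
      ((univ.biUnion (fun x' => (range r).biUnion (fun i => Qs x' i v))).filter
        (fun y => List.ofFn x <+: y)).card ≤ q) with hE
  have hPP : ∀ v ∈ E, ∀ x : S, ∃ i, i < r ∧ ∃ j, PP Qs x v i j := by
    intro v hv x
    rw [hE, mem_filter] at hv
    obtain ⟨⟨i, hi, x', k, hk, hmem⟩, _⟩ := hv.2 x x.2
    refine ⟨i, hi, n - 1, by omega, le_rfl, k, hk, ?_⟩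
    unfold HH
    rw [mem_biUnion]
    exact ⟨x', mem_univ _, hmem⟩
  have hPP' : ∀ v ∈ E, ∀ x : S, ∃ i, ∃ j, PP Qs x v i j := by
    intro v hv x
    obtain ⟨i, _, h⟩ := hPP v hv x
    exact ⟨i, h⟩
  have hIr : ∀ v ∈ E, ∀ x : S, II Qs x v < r := by
    intro v hv x
    obtain ⟨i, hi, j, h⟩ := hPP v hv x
    exact lt_of_le_of_lt (II_min h) hi
  have hcand : ∀ v ∈ E, ∀ x : S,
      (cand (x : Fin n → Bool) (HH Qs (II Qs x v) v) (JJ Qs x v)).card ≤ q := by
    intro v hv x
    have hv' := hv
    rw [hE, mem_filter] at hv'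
    refine le_trans ?_ (hv'.2 x x.2).2
    have hch : ∀ y ∈ cand (x : Fin n → Bool) (HH Qs (II Qs x v) v) (JJ Qs x v),
        ∃ k < side n, ent n x (JJ Qs x v) y k ∈ HH Qs (II Qs x v) v := by
      intro y hy
      unfold cand at hy
      exact (mem_filter.1 hy).2
    apply Finset.card_le_card_of_injOn (fun y => if h : ∃ k < side n,
        ent n x (JJ Qs x v) y k ∈ HH Qs (II Qs x v) v then ent n x (JJ Qs x v) y h.choose else [])
    · intro y hy
      have h := hch y hy
      simp only [mem_coe]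
      rw [dif_pos h, mem_filter]
      refine ⟨?_, ent_prefix _ _ _ _ _⟩
      have h2 := h.choose_spec.2
      unfold HH at h2
      rw [mem_biUnion] at h2
      obtain ⟨x', _, hx'⟩ := h2
      rw [mem_biUnion]
      refine ⟨x', mem_univ _, ?_⟩
      rw [mem_biUnion]
      exact ⟨II Qs x v, mem_range.2 (hIr v hv x), hx'⟩
    · intro y hy y' hy' he
      have h := hch y hy
      have h' := hch y' hy'
      simp only at he
      rw [dif_pos h, dif_pos h'] at he
      exact (ent_inj he).2.1
  -- the map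
  let F : (Fin N → Bool) × (S → Fin (side n) → Bool) → (Fin N → Bool) × (S → ℕ × ℕ × ℕ) :=
    fun a => (ww Qs S a.1 a.2, fun x => (II Qs x a.1, JJ Qs x a.1,
      ix (cand x (HH Qs (II Qs x a.1) a.1) (JJ Qs x a.1)) (chain n (orc N a.1) x (JJ Qs x a.1))))
  have hmaps : ∀ a ∈ E ×ˢ (univ : Finset (S → Fin (side n) → Bool)),
      F a ∈ (univ : Finset (Fin N → Bool)) ×ˢ
        Fintype.piFinset (fun _ : S => range r ×ˢ (range n ×ˢ range q)) := by
    rintro ⟨v, z⟩ ha
    rw [mem_product] at ha
    have hv := ha.1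
    rw [mem_product]
    refine ⟨mem_univ _, ?_⟩
    rw [Fintype.mem_piFinset]
    intro x
    have h1 := II_JJ (hPP' v hv x)
    obtain ⟨a1, a2, k, hk, a3⟩ := h1
    simp only [F, mem_product, mem_range]
    refine ⟨hIr v hv x, by omega, ?_⟩
    refine lt_of_lt_of_le (ix_lt ?_) (hcand v hv x)
    unfold cand
    rw [mem_filter]
    exact ⟨mem_univ _, k, hk, a3⟩
  have hinj : Set.InjOn F (E ×ˢ (univ : Finset (S → Fin (side n) → Bool)) :
      Finset ((Fin N → Bool) × (S → Fin (side n) → Bool))) := by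
    rintro ⟨v1, z1⟩ ha1 ⟨v2, z2⟩ ha2 he
    rw [mem_coe, mem_product] at ha1 ha2
    simp only [F, Prod.mk.injEq] at he
    obtain ⟨hw, hd⟩ := he
    have hd' : ∀ x : S, _ := fun x => congrFun hd x
    simp only [Prod.mk.injEq] at hd'
    obtain ⟨e1, e2⟩ := main_inj hN Qs hloc S v1 v2 z1 z2 (hPP' v1 ha1.1) (hPP' v2 ha2.1) hw
      (fun x => (hd' x).1) (fun x => (hd' x).2.1) (fun x => (hd' x).2.2)
    rw [e1, e2]
  have hcard := Finset.card_le_card_of_injOn F hmaps hinj
  rw [card_product, card_product, Fintype.card_piFinset] at hcard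
  simp only [card_product, card_range, prod_const, card_univ, Fintype.card_fun, Fintype.card_fin,
    Fintype.card_bool, Fintype.card_coe] at hcard
  rw [← pow_mul] at hcard
  have e : r * n * q = r * (n * q) := by ring
  rw [e]
  exact hcard

end Pool.Agent.H628R5.SN
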