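import Pool.Agent.H628R5.SN.Base
import Pool.Agent.H620R2.Gauge.NonNull
import Pool.Agent.H620R2.Gauge2.Null
import Pool.Agent.H620R2.Gauge.Y
import Pool.Agent.H620R2.Gauge.Cover
import Pool.Agent.H620R2.Gauge.S

/-!
# Task L0 (helper384): oracles with prescribed addresses
-/

namespace Pool.Agent.H628R5.SN

open Pool.Agent.NPC Pool.Agent.H620R2.Gauge Finset H568R2 Pool.Agent.H676
open Filter (atTop)

theorem L0_count {N : ℕ} (J : Finset (Fin N)) (F : Finset (Fin N → Bool))
    (h : ∀ v ∈ F, ∀ v' ∈ F, ∀ i ∈ J, v i = v' i) : F.card * 2 ^ J.card ≤ 2 ^ N := by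
  have hJ : J.card ≤ N := by
    have := card_le_univ J
    rwa [Fintype.card_fin] at this
  have hcard : Fintype.card ({i : Fin N // i ∉ J} → Bool) = 2 ^ (N - J.card) := by
    rw [Fintype.card_fun, Fintype.card_bool]
    congr 1
    rw [Fintype.card_subtype_compl, Fintype.card_fin, Fintype.card_coe]
  have h1 : F.card ≤ 2 ^ (N - J.card) := by
    rw [← hcard, ← card_univ]
    refine card_le_card_of_injOn (fun v i => v i.1) (fun _ _ => mem_coe.2 (mem_univ _)) ?_
    intro v hv v' hv' hvv
    funext i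
    by_cases hi : i ∈ J
    · exact h v (mem_coe.1 hv) v' (mem_coe.1 hv') i hi
    · exact congrFun hvv ⟨i, hi⟩
  calc F.card * 2 ^ J.card ≤ 2 ^ (N - J.card) * 2 ^ J.card := Nat.mul_le_mul_right _ h1
    _ = 2 ^ N := by rw [← pow_add, Nat.sub_add_cancel hJ]

-- L0
theorem addr_fix (n N : ℕ) (hN : 2 ^ (4 * n + 2) ≤ N) (S : Finset (Fin n → Bool))
    (a : (Fin n → Bool) → Fin (2 * n) → Bool) :
    (univ.filter (fun v : Fin N → Bool =>
      ∀ x ∈ S, addr n (orc N v) x = a x)).card * 2 ^ (2 * n * S.card) ≤ 2 ^ N := by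
  have hlen : ∀ (x : Fin n → Bool) (i : ℕ),
      (List.ofFn x ++ List.replicate i true).length = n + i := by
    intro x i
    rw [List.length_append, List.length_ofFn, List.length_replicate]
  have hidx : ∀ (x : Fin n → Bool) (i : Fin (2 * n)),
      idx (List.ofFn x ++ List.replicate i true) < N := by
    intro x i
    have h1 := idx_lt (List.ofFn x ++ List.replicate (i : ℕ) true)
    rw [hlen] at h1
    have h2 : 2 ^ (n + (i : ℕ) + 1) ≤ 2 ^ (4 * n + 2) :=
      Nat.pow_le_pow_right (by norm_num) (by have := i.2; omega)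
    omega
  have hinj : ∀ (x x' : Fin n → Bool) (i i' : Fin (2 * n)),
      idx (List.ofFn x ++ List.replicate i true) = idx (List.ofFn x' ++ List.replicate i' true) →
      x = x' ∧ i = i' := by
    intro x x' i i' h
    have h1 : List.ofFn x ++ List.replicate (i : ℕ) true
        = List.ofFn x' ++ List.replicate (i' : ℕ) true := by
      rw [← str_idx (List.ofFn x ++ List.replicate (i : ℕ) true), h, str_idx]
    have h2 := congrArg List.length h1
    rw [hlen, hlen] at h2
    have h3 : (i : ℕ) = i' := by omega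
    refine ⟨?_, Fin.ext h3⟩
    have h4 := List.append_inj_left h1 (by rw [List.length_ofFn, List.length_ofFn])
    exact List.ofFn_injective h4
  obtain ⟨J, hJ⟩ : ∃ J : Finset (Fin N), J = (S ×ˢ (univ : Finset (Fin (2 * n)))).image
      (fun q => (⟨idx (List.ofFn q.1 ++ List.replicate q.2 true), hidx q.1 q.2⟩ : Fin N)) :=
    ⟨_, rfl⟩
  have hc : J.card = 2 * n * S.card := by
    rw [hJ, card_image_of_injective, card_product, card_univ, Fintype.card_fin, mul_comm]
    rintro ⟨x, i⟩ ⟨x', i'⟩ h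
    obtain ⟨h1, h2⟩ := hinj x x' i i' (congrArg Fin.val h)
    rw [h1, h2]
  rw [← hc]
  apply L0_count
  intro v hv v' hv' j hj
  rw [hJ, mem_image] at hj
  obtain ⟨⟨x, i⟩, hq, h⟩ := hj
  have hx : x ∈ S := (mem_product.1 hq).1
  rw [mem_filter] at hv hv'
  have h3 : ∀ u : Fin N → Bool, addr n (orc N u) x i = u j := by
    intro u
    unfold addr orc
    rw [dif_pos (hidx x i), ← h]
  rw [← h3 v, ← h3 v', hv.2 x hx, hv'.2 x hx]

end Pool.Agent.H628R5.SN

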