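import Pool.Agent.H628R5.SN.Base
import Pool.Agent.H620R2.Gauge.NonNull
import Pool.Agent.H620R2.Gauge2.Null
import Pool.Agent.H620R2.Gauge.Y
import Pool.Agent.H620R2.Gauge.Cover
import Pool.Agent.H628R5.SN.F_L0

/-! Task L1: `many_badL`. -/

namespace Pool.Agent.H628R5.SN

open Pool.Agent.NPC Pool.Agent.H620R2.Gauge Finset H568R2 Pool.Agent.H676

theorem L1_leafS_inj (n : ℕ) (x : Fin n → Bool) : Function.Injective (leafS n x) := by
  intro a b h
  unfold leafS at h
  have h1 := List.append_cancel_right h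
  have h2 := List.append_cancel_left h1
  exact List.ofFn_injective h2

theorem L1_fix (n N : ℕ) (hN : 2 ^ (4 * n + 2) ≤ N) (W : Finset (List Bool))
    (S : Finset (Fin n → Bool)) :
    (univ.filter (fun v : Fin N → Bool =>
      ∀ x ∈ S, leafS n x (addr n (orc N v) x) ∈ W)).card * 2 ^ (2 * n * S.card) ≤
      W.card ^ S.card * 2 ^ N := by
  classical
  set T : Finset ((Fin n → Bool) → Fin (2 * n) → Bool) :=
    Fintype.piFinset (fun x => if x ∈ S then univ.filter (fun a => leafS n x a ∈ W)
      else {fun _ => false}) with hT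
  have hcard : T.card ≤ W.card ^ S.card := by
    rw [hT, Fintype.card_piFinset]
    calc ∏ x : Fin n → Bool, (if x ∈ S then univ.filter (fun a => leafS n x a ∈ W)
          else {fun _ => false}).card
        ≤ ∏ x : Fin n → Bool, (if x ∈ S then W.card else 1) := by
          refine prod_le_prod' fun x _ => ?_
          split_ifs with hx
          · refine card_le_card_of_injOn (leafS n x) ?_ ?_
            · intro a ha
              simpa using ha
            · intro a _ b _ hab
              exact L1_leafS_inj n x hab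
          · simp
      _ = W.card ^ S.card := by
          rw [prod_ite, prod_const, prod_const, one_pow, mul_one]
          congr 1
          congr 1
          ext x
          simp
  have hsub : (univ.filter (fun v : Fin N → Bool =>
      ∀ x ∈ S, leafS n x (addr n (orc N v) x) ∈ W)) ⊆
      T.biUnion (fun a => univ.filter (fun v : Fin N → Bool =>
        ∀ x ∈ S, addr n (orc N v) x = a x)) := by
    intro v hv
    rw [mem_filter] at hv
    rw [mem_biUnion]
    refine ⟨fun x => if x ∈ S then addr n (orc N v) x else fun _ => false, ?_, ?_⟩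
    · rw [hT, Fintype.mem_piFinset]
      intro x
      by_cases hx : x ∈ S
      · simp only [hx, if_true, mem_filter, mem_univ, true_and]
        exact hv.2 x hx
      · simp [hx]
    · rw [mem_filter]
      refine ⟨mem_univ _, fun x hx => ?_⟩
      simp [hx]
  calc (univ.filter (fun v : Fin N → Bool =>
      ∀ x ∈ S, leafS n x (addr n (orc N v) x) ∈ W)).card * 2 ^ (2 * n * S.card)
      ≤ (∑ a ∈ T, (univ.filter (fun v : Fin N → Bool =>
        ∀ x ∈ S, addr n (orc N v) x = a x)).card) * 2 ^ (2 * n * S.card) :=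
        Nat.mul_le_mul_right _ ((card_le_card hsub).trans card_biUnion_le)
    _ = ∑ a ∈ T, (univ.filter (fun v : Fin N → Bool =>
        ∀ x ∈ S, addr n (orc N v) x = a x)).card * 2 ^ (2 * n * S.card) := by
        rw [sum_mul]
    _ ≤ ∑ _a ∈ T, 2 ^ N := by
        refine sum_le_sum fun a _ => ?_
        exact addr_fix n N hN S a
    _ = T.card * 2 ^ N := by rw [sum_const, smul_eq_mul]
    _ ≤ W.card ^ S.card * 2 ^ N := Nat.mul_le_mul_right _ hcard

theorem many_badL (n N : ℕ) (hn : 1 ≤ n) (hN : 2 ^ (4 * n + 2) ≤ N) (W : Finset (List Bool))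
    (hW : 16 * W.card ≤ 2 ^ (2 * n)) :
    (univ.filter (fun v : Fin N → Bool => 2 ^ (n - 1) ≤
      (univ.filter (fun x : Fin n → Bool => leafS n x (addr n (orc N v) x) ∈ W)).card)).card *
      2 ^ 2 ^ n ≤ 2 ^ N := by
  classical
  set s : ℕ := 2 ^ (n - 1) with hs
  have h2s : 2 ^ n = 2 * s := by
    obtain ⟨m, rfl⟩ : ∃ m, n = m + 1 := ⟨n - 1, by omega⟩
    rw [hs, Nat.add_sub_cancel, pow_succ, mul_comm]
  set B := (univ.filter (fun v : Fin N → Bool => s ≤
      (univ.filter (fun x : Fin n → Bool => leafS n x (addr n (orc N v) x) ∈ W)).card)).card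
    with hB
  have h1 : B * 2 ^ (2 * n * s) ≤ 2 ^ (2 * s) * W.card ^ s * 2 ^ N := by
    have hsub : (univ.filter (fun v : Fin N → Bool => s ≤
        (univ.filter (fun x : Fin n → Bool => leafS n x (addr n (orc N v) x) ∈ W)).card)) ⊆
        (powersetCard s (univ : Finset (Fin n → Bool))).biUnion (fun S =>
          univ.filter (fun v : Fin N → Bool =>
            ∀ x ∈ S, leafS n x (addr n (orc N v) x) ∈ W)) := by
      intro v hv
      rw [mem_filter] at hv
      obtain ⟨S, hS, hSc⟩ := exists_subset_card_eq hv.2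
      rw [mem_biUnion]
      refine ⟨S, mem_powersetCard.2 ⟨subset_univ _, hSc⟩, ?_⟩
      rw [mem_filter]
      refine ⟨mem_univ _, fun x hx => ?_⟩
      exact (mem_filter.1 (hS hx)).2
    calc B * 2 ^ (2 * n * s) ≤ (∑ S ∈ powersetCard s (univ : Finset (Fin n → Bool)),
          (univ.filter (fun v : Fin N → Bool =>
            ∀ x ∈ S, leafS n x (addr n (orc N v) x) ∈ W)).card) * 2 ^ (2 * n * s) :=
          Nat.mul_le_mul_right _ ((card_le_card hsub).trans card_biUnion_le)
      _ = ∑ S ∈ powersetCard s (univ : Finset (Fin n → Bool)),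
          (univ.filter (fun v : Fin N → Bool =>
            ∀ x ∈ S, leafS n x (addr n (orc N v) x) ∈ W)).card * 2 ^ (2 * n * s) := by
          rw [sum_mul]
      _ ≤ ∑ _S ∈ powersetCard s (univ : Finset (Fin n → Bool)), W.card ^ s * 2 ^ N := by
          refine sum_le_sum fun S hS => ?_
          have hc := (mem_powersetCard.1 hS).2
          have h := L1_fix n N hN W S
          rwa [hc] at h
      _ = (powersetCard s (univ : Finset (Fin n → Bool))).card * (W.card ^ s * 2 ^ N) := by
          rw [sum_const, smul_eq_mul]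
      _ ≤ 2 ^ (2 * s) * (W.card ^ s * 2 ^ N) := by
          refine Nat.mul_le_mul_right _ ?_
          rw [card_powersetCard]
          have h3 : (univ : Finset (Fin n → Bool)).card = 2 * s := by
            rw [card_univ, Fintype.card_fun, Fintype.card_bool, Fintype.card_fin, h2s]
          rw [h3]
          exact Nat.choose_le_two_pow _ _
      _ = 2 ^ (2 * s) * W.card ^ s * 2 ^ N := by rw [mul_assoc]
  have h4 : (16 * W.card) ^ s ≤ 2 ^ (2 * n * s) := by
    rw [pow_mul]
    exact Nat.pow_le_pow_left hW s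
  have h5 : (16 : ℕ) ^ s = 2 ^ (2 * s) * 2 ^ (2 * s) := by
    rw [← pow_add, show 2 * s + 2 * s = 4 * s by ring, pow_mul]
    norm_num
  have h6 : (B * 2 ^ (2 * s)) * (2 ^ (2 * s) * 2 ^ (2 * n * s)) ≤
      2 ^ N * (2 ^ (2 * s) * 2 ^ (2 * n * s)) := by
    calc (B * 2 ^ (2 * s)) * (2 ^ (2 * s) * 2 ^ (2 * n * s))
        = (B * 2 ^ (2 * n * s)) * (2 ^ (2 * s) * 2 ^ (2 * s)) := by ring
      _ ≤ (2 ^ (2 * s) * W.card ^ s * 2 ^ N) * (2 ^ (2 * s) * 2 ^ (2 * s)) :=
          Nat.mul_le_mul_right _ h1
      _ = (2 ^ (2 * s) * 2 ^ N) * (16 * W.card) ^ s := by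
          rw [← h5, mul_pow]; ring
      _ ≤ (2 ^ (2 * s) * 2 ^ N) * 2 ^ (2 * n * s) := Nat.mul_le_mul_left _ h4
      _ = 2 ^ N * (2 ^ (2 * s) * 2 ^ (2 * n * s)) := by ring
  rw [h2s]
  exact Nat.le_of_mul_le_mul_right h6 (by positivity)

end Pool.Agent.H628R5.SN

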