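import Pool.Agent.H628R5.SN.Base
import Pool.Agent.H620R2.Gauge.NonNull
import Pool.Agent.H620R2.Gauge2.Null
import Pool.Agent.H620R2.Gauge.Y
import Pool.Agent.H620R2.Gauge.Cover
import Pool.Agent.H628R5.SN.F_FLI
import Pool.Agent.H620R2.Gauge.S

/-! Task L2: if many leaves are good, then the answers are seldom all correct.
Proved by helper973. -/

namespace Pool.Agent.H628R5.SN

open Pool.Agent.NPC Pool.Agent.H620R2.Gauge Finset H568R2 Pool.Agent.H676
open Filter (atTop)

theorem L2_idx_inj {y y' : List Bool} (h : idx y = idx y') : y = y' := by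
  rw [← str_idx y, h, str_idx]

theorem L2_len (n : ℕ) (x : Fin n → Bool) (a : Fin (2 * n) → Bool) :
    (leafS n x a).length = 4 * n := by
  unfold leafS
  rw [List.length_append, List.length_append, List.length_ofFn, List.length_ofFn,
    List.length_replicate]
  omega

theorem L2_lt {n N : ℕ} (hN : 2 ^ (4 * n + 2) ≤ N) (x : Fin n → Bool)
    (a : Fin (2 * n) → Bool) : idx (leafS n x a) < N := by
  have h1 := idx_lt (leafS n x a)
  rw [L2_len] at h1
  have h2 : 2 ^ (4 * n + 1) ≤ 2 ^ (4 * n + 2) := Nat.pow_le_pow_right (by norm_num) (by omega)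
  omega

theorem L2_leaf_inj {n : ℕ} {x x' : Fin n → Bool} {a a' : Fin (2 * n) → Bool}
    (h : leafS n x a = leafS n x' a') : x = x' := by
  unfold leafS at h
  rw [List.append_assoc, List.append_assoc] at h
  have h1 := (List.append_inj h (by rw [List.length_ofFn, List.length_ofFn])).1
  exact List.ofFn_injective h1

/-- the position of the leaf -/
noncomputable def L2_pos {n N : ℕ} (hN : 2 ^ (4 * n + 2) ≤ N) (x : Fin n → Bool)
    (v : Fin N → Bool) : Fin N :=
  ⟨idx (leafS n x (addr n (orc N v) x)), L2_lt hN x _⟩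

theorem L2_orc {n N : ℕ} (hN : 2 ^ (4 * n + 2) ≤ N) (x : Fin n → Bool) (v : Fin N → Bool)
    (b : Bool) (y : List Bool) (hy : y ≠ leafS n x (addr n (orc N v) x)) :
    orc N (Function.update v (L2_pos hN x v) b) y = orc N v y := by
  unfold orc
  split_ifs with h
  · apply Function.update_of_ne
    intro he
    exact hy (L2_idx_inj (congrArg Fin.val he))
  · rfl

theorem L2_addr {n N : ℕ} (hN : 2 ^ (4 * n + 2) ≤ N) (x x' : Fin n → Bool) (v : Fin N → Bool)
    (b : Bool) : addr n (orc N (Function.update v (L2_pos hN x v) b)) x' =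
      addr n (orc N v) x' := by
  funext i
  unfold addr
  apply L2_orc
  intro he
  have h1 := congrArg List.length he
  rw [L2_len, List.length_append, List.length_ofFn, List.length_replicate] at h1
  have h2 := i.2
  omega

open Classical in
theorem few_goodL (n N : ℕ) (hn : 1 ≤ n) (hN : 2 ^ (4 * n + 2) ≤ N) (W : Finset (List Bool))
    (G : (Fin n → Bool) → (Fin N → Bool) → Bool)
    (hG : ∀ x v v', (∀ y ∈ W, orc N v y = orc N v' y) → G x v = G x v') :
    (univ.filter (fun v : Fin N → Bool => (∀ x, leafF (orc N v) n x = G x v) ∧ 2 ^ (n - 1) ≤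
      (univ.filter (fun x : Fin n → Bool => leafS n x (addr n (orc N v) x) ∉ W)).card)).card *
      2 ^ 2 ^ (n - 1) ≤ 2 ^ N := by
  have _ := hn
  have h := flip_general (I := Fin N) (ι := Fin n → Bool) univ (L2_pos hN)
    (fun x v => leafS n x (addr n (orc N v) x) ∉ W) G (2 ^ (n - 1))
    (by
      intro v x _ x' _ _ _ he
      exact L2_leaf_inj (L2_idx_inj (congrArg Fin.val he)))
    (by
      intro v x _ hx x' _
      refine ⟨?_, ?_, ?_⟩
      · rw [L2_addr]
      · intro _
        apply Fin.ext
        show idx _ = idx _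
        rw [L2_addr]
      · apply hG
        intro y hy
        apply L2_orc
        intro he
        rw [he] at hy
        exact hx hy)
  rw [Fintype.card_fin] at h
  refine le_trans (Nat.mul_le_mul_right _ (Finset.card_le_card ?_)) h
  intro v hv
  obtain ⟨hv0, h1, h2⟩ := Finset.mem_filter.1 hv
  simp only [Finset.mem_filter, Finset.mem_univ, true_and]
  refine ⟨?_, ?_⟩
  · intro x _ _
    rw [← h1 x]
    show orc N v _ = _
    exact dif_pos (L2_lt hN x _)
  · convert h2

end Pool.Agent.H628R5.SN

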