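import Pool.Agent.H628R5.SN.Base
import Pool.Agent.H620R2.Gauge.Cover
import Pool.Agent.H628R5.SN.F_L1
import Pool.Agent.H628R5.SN.F_L2

/-! The bound for the probability. -/

namespace Pool.Agent.H628R5.SN

open Pool.Agent.NPC Pool.Agent.H620R2.Gauge Finset H568R2 Pool.Agent.H676
open Filter (atTop)

open Classical in
theorem leaf_bound (n N : ℕ) (hn : 1 ≤ n) (hN : 2 ^ (4 * n + 2) ≤ N) (W : Finset (List Bool))
    (hW : 16 * W.card ≤ 2 ^ (2 * n)) (G : (Fin n → Bool) → (Fin N → Bool) → Bool)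
    (hG : ∀ x v v', (∀ y ∈ W, orc N v y = orc N v' y) → G x v = G x v') :
    Ex unif (fun v : Fin N → Bool =>
      if ∀ x, leafF (orc N v) n x = G x v then (1 : ℝ) else 0) ≤ 2 / 2 ^ 2 ^ (n - 1) := by
  have h1 := many_badL n N hn hN W hW
  have h2 := few_goodL n N hn hN W G hG
  set u := 2 ^ (n - 1) with hu
  have hu2 : 2 ^ n = 2 * u := by
    rw [hu, ← pow_succ']
    congr 1
    omega
  set B := univ.filter (fun v : Fin N → Bool =>
      u ≤ (univ.filter (fun x : Fin n → Bool => leafS n x (addr n (orc N v) x) ∈ W)).card) with hB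
  set D := univ.filter (fun v : Fin N → Bool =>
      (∀ x, leafF (orc N v) n x = G x v) ∧
      u ≤ (univ.filter (fun x : Fin n → Bool => leafS n x (addr n (orc N v) x) ∉ W)).card) with hD
  have hsub : (univ.filter (fun v : Fin N → Bool =>
      ∀ x, leafF (orc N v) n x = G x v)) ⊆ B ∪ D := by
    intro v hv
    rw [Finset.mem_filter] at hv
    have hsum : (univ.filter (fun x : Fin n → Bool => leafS n x (addr n (orc N v) x) ∈ W)).card +
        (univ.filter (fun x : Fin n → Bool => leafS n x (addr n (orc N v) x) ∉ W)).card =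
        2 * u := by
      rw [← hu2]
      have h := Finset.card_filter_add_card_filter_not (s := (univ : Finset (Fin n → Bool)))
        (fun x => leafS n x (addr n (orc N v) x) ∈ W)
      rw [h]
      simp
    rw [Finset.mem_union, hB, hD, Finset.mem_filter, Finset.mem_filter]
    by_cases hc : u ≤ (univ.filter (fun x : Fin n → Bool =>
        leafS n x (addr n (orc N v) x) ∈ W)).card
    · exact Or.inl ⟨Finset.mem_univ _, hc⟩
    · exact Or.inr ⟨Finset.mem_univ _, hv.2, by omega⟩
  have hcard := (Finset.card_le_card hsub).trans (Finset.card_union_le B D)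
  have hE : Ex unif (fun v : Fin N → Bool =>
      if ∀ x, leafF (orc N v) n x = G x v then (1 : ℝ) else 0) =
      (((univ.filter (fun v : Fin N → Bool =>
        ∀ x, leafF (orc N v) n x = G x v)).card : ℕ) : ℝ) * 2 ^ (-(N : ℝ)) := by
    have h := card_of_Ex (N := N) (fun v => ∀ x, leafF (orc N v) n x = G x v)
    convert h.symm
  rw [hE]
  have h1' : ((B.card : ℕ) : ℝ) * 2 ^ (2 ^ n) ≤ 2 ^ N := by exact_mod_cast h1
  have h2' : ((D.card : ℕ) : ℝ) * 2 ^ u ≤ 2 ^ N := by exact_mod_cast h2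
  have hcard' : (((univ.filter (fun v : Fin N → Bool =>
      ∀ x, leafF (orc N v) n x = G x v)).card : ℕ) : ℝ) ≤ B.card + D.card := by
    exact_mod_cast hcard
  have hu1 : (1 : ℝ) ≤ 2 ^ u := one_le_pow₀ (by norm_num)
  have hN0 : (0 : ℝ) < 2 ^ N := by positivity
  have hB1 : (B.card : ℝ) * 2 ^ u ≤ 2 ^ N := by
    refine le_trans ?_ h1'
    refine mul_le_mul_of_nonneg_left ?_ (by positivity)
    exact pow_le_pow_right₀ (by norm_num) (by omega)
  have hfin : (((univ.filter (fun v : Fin N → Bool =>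
      ∀ x, leafF (orc N v) n x = G x v)).card : ℕ) : ℝ) * 2 ^ u ≤ 2 * 2 ^ N := by
    nlinarith
  rw [Real.rpow_neg (by norm_num), Real.rpow_natCast, le_div_iff₀ (by positivity)]
  have : (((univ.filter (fun v : Fin N → Bool =>
      ∀ x, leafF (orc N v) n x = G x v)).card : ℕ) : ℝ) * ((2 : ℝ) ^ N)⁻¹ * 2 ^ u =
      ((((univ.filter (fun v : Fin N → Bool =>
      ∀ x, leafF (orc N v) n x = G x v)).card : ℕ) : ℝ) * 2 ^ u) / 2 ^ N := by
    field_simp
  rw [this, div_le_iff₀ hN0]
  exact hfin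

end Pool.Agent.H628R5.SN
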