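import Pool.Agent.H628R5.SN.Base

/-! LNC: small-depth circuits for the test function. -/

namespace Pool.Agent.H628R5.SN

open Pool.Agent.NPC Pool.Agent.H620R2.Gauge Finset H568R2 Pool.Agent.H676

/-- sources of the first layer -/
def lncS1 (n : ℕ) : Fin (4 * n) → Src n (2 * n + 1) :=
  fun t => if h : t.1 < n then .lit ⟨t.1, h⟩ true else .const true

/-- sources of the second layer -/
def lncS2 (n : ℕ) : Fin (4 * n) → Src n (2 * n + 1) :=
  fun t => if h : t.1 < n then .lit ⟨t.1, h⟩ true else
    if h' : t.1 < 3 * n then .prev ⟨t.1 - n, by omega⟩ else .const true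

theorem lncQ1 (n : ℕ) (x : Fin n → Bool) (v : Fin (2 * n + 1) → Bool) (i : ℕ) (hi : i ≤ 2 * n)
    (hk : n + i < 4 * n + 1) :
    query x v (⟨n + i, hk⟩ : Fin (4 * n + 1)) (lncS1 n) = List.ofFn x ++ List.replicate i true := by
  unfold query
  apply List.ext_getElem
  · simp only [List.length_take, List.length_ofFn, List.length_append, List.length_replicate]
    omega
  · intro t h1 h2
    rw [List.getElem_take, List.getElem_ofFn]
    by_cases h : t < n
    · rw [List.getElem_append_left (by simpa using h), List.getElem_ofFn]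
      simp [lncS1, h, Src.val]
    · rw [List.getElem_append_right (by simpa using h), List.getElem_replicate]
      simp [lncS1, h, Src.val]

theorem lncQ2 (n : ℕ) (x : Fin n → Bool) (v : Fin (2 * n + 1) → Bool)
    (hk : 4 * n < 4 * n + 1) :
    query x v (⟨4 * n, hk⟩ : Fin (4 * n + 1)) (lncS2 n) =
      leafS n x (fun t => v ⟨t.1, by omega⟩) := by
  unfold query leafS
  apply List.ext_getElem
  · simp only [List.length_take, List.length_ofFn, List.length_append, List.length_replicate]
    omega
  · intro t h1 h2
    rw [List.getElem_take, List.getElem_ofFn]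
    by_cases h : t < n
    · rw [List.getElem_append_left (by simp; omega), List.getElem_append_left (by simpa using h),
        List.getElem_ofFn]
      simp [lncS2, h, Src.val]
    · by_cases h' : t < 3 * n
      · rw [List.getElem_append_left (by simp; omega), List.getElem_append_right (by simpa using h),
          List.getElem_ofFn]
        simp [lncS2, h, h', Src.val]
      · rw [List.getElem_append_right (by simp; omega), List.getElem_replicate]
        simp [lncS2, h, h', Src.val]

/-- the circuit -/
def lncC (n : ℕ) : OC n (2 * n + 1) 2 (4 * n) := fun j i =>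
  if j.1 = 0 then .ask ⟨n + i.1, by omega⟩ (lncS1 n) else .ask ⟨4 * n, by omega⟩ (lncS2 n)

theorem lncC_out (n : ℕ) (A : Oracle) (x : Fin n → Bool) :
    (lncC n).out A x = leafF A n x := by
  have h1 : ∀ i : Fin (2 * n + 1), (lncC n).layer A x 1 i =
      A (List.ofFn x ++ List.replicate i.1 true) := by
    intro i
    have hi : i.1 ≤ 2 * n := by omega
    show (lncC n ⟨0, by norm_num⟩ i).val A x ((lncC n).layer A x 0) = _
    show A (query x ((lncC n).layer A x 0) (⟨n + i.1, by omega⟩ : Fin (4 * n + 1)) (lncS1 n)) = _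
    rw [lncQ1 n x _ i.1 hi]
  have h0 : (0 : ℕ) < 2 * n + 1 := by omega
  have h2 : (lncC n).out A x = A (query x ((lncC n).layer A x 1)
      (⟨4 * n, by omega⟩ : Fin (4 * n + 1)) (lncS2 n)) := by
    unfold OC.out
    rw [dif_pos h0]
    rfl
  rw [h2, lncQ2]
  unfold leafF addr
  congr 1
  congr 1
  funext t
  exact h1 _

-- LNC
theorem leafF_inNC (A : Oracle) : InNC A (leafF A) := by
  refine ⟨4, fun n => ?_⟩
  have hm : 4 * n ≤ n ^ 4 + 4 := by
    rcases n with _ | _ | n
    · simp
    · simp
    · have h1 : (n + 1 + 1) ^ 4 = (n + 1 + 1) * (n + 1 + 1) ^ 3 := by ring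
      have h2 : 2 ^ 3 ≤ (n + 1 + 1) ^ 3 := Nat.pow_le_pow_left (by omega) 3
      rw [h1]
      nlinarith
  refine ⟨2 * n + 1, 2, 4 * n, ?_, ?_, hm, lncC n, fun x => lncC_out n A x⟩
  · generalize n ^ 4 = y at hm ⊢
    omega
  · omega

end Pool.Agent.H628R5.SN

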