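import Pool.Agent.H628R5.SN.Base
import Pool.Agent.H620R2.Gauge.NonNull
import Pool.Agent.H620R2.Gauge2.Null
import Pool.Agent.H620R2.Gauge.Y
import Pool.Agent.H620R2.Gauge.Cover
import Pool.Agent.H628R5.SN.F_BIT
import Pool.Agent.H620R2.Gauge.S

/-! Task PP1. -/

set_option autoImplicit false

namespace Pool.Agent.H628R5.SN

open Pool.Agent.NPC Pool.Agent.H620R2.Gauge Finset H568R2 Pool.Agent.H676
open Filter (atTop)

/-- polynomially bounded functions -/
def PP1_PB (F : ℕ → ℕ) : Prop := ∃ e, ∀ n, F n ≤ (n + 2) ^ e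

theorem PP1_const (k : ℕ) : PP1_PB (fun _ => k) :=
  ⟨k, fun _ => (Nat.lt_two_pow_self (n := k)).le.trans (Nat.pow_le_pow_left (by omega) k)⟩

theorem PP1_id : PP1_PB (fun n => n) := ⟨1, fun n => by simp⟩

theorem PP1_add {F G : ℕ → ℕ} (hF : PP1_PB F) (hG : PP1_PB G) : PP1_PB (fun n => F n + G n) := by
  obtain ⟨e, he⟩ := hF
  obtain ⟨f, hf⟩ := hG
  refine ⟨e + f + 1, fun n => ?_⟩
  have h1 : (n + 2) ^ e ≤ (n + 2) ^ (e + f) := Nat.pow_le_pow_right (by omega) (by omega)
  have h2 : (n + 2) ^ f ≤ (n + 2) ^ (e + f) := Nat.pow_le_pow_right (by omega) (by omega)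
  have h3 := he n
  have h4 := hf n
  calc F n + G n ≤ (n + 2) ^ (e + f) + (n + 2) ^ (e + f) := by omega
    _ = (n + 2) ^ (e + f) * 2 := by ring
    _ ≤ (n + 2) ^ (e + f) * (n + 2) := Nat.mul_le_mul_left _ (by omega)
    _ = (n + 2) ^ (e + f + 1) := by rw [pow_succ]

theorem PP1_mul {F G : ℕ → ℕ} (hF : PP1_PB F) (hG : PP1_PB G) : PP1_PB (fun n => F n * G n) := by
  obtain ⟨e, he⟩ := hF
  obtain ⟨f, hf⟩ := hG
  refine ⟨e + f, fun n => ?_⟩
  rw [pow_add]
  exact Nat.mul_le_mul (he n) (hf n)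

theorem PP1_pow {F : ℕ → ℕ} (hF : PP1_PB F) (K : ℕ) : PP1_PB (fun n => F n ^ K) := by
  obtain ⟨e, he⟩ := hF
  refine ⟨e * K, fun n => ?_⟩
  rw [pow_mul]
  exact Nat.pow_le_pow_left (he n) K

theorem PP1_fin {F : ℕ → ℕ} (hF : PP1_PB F) : ∃ c, ∀ n, F n ≤ n ^ c + c := by
  obtain ⟨e, he⟩ := hF
  refine ⟨2 * e + 3 ^ e, fun n => ?_⟩
  have h := he n
  rcases Nat.lt_or_ge n 2 with hn | hn
  · have h1 : (n + 2) ^ e ≤ 3 ^ e := Nat.pow_le_pow_left (by omega) e
    have h2 : 3 ^ e ≤ 2 * e + 3 ^ e := Nat.le_add_left _ _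
    exact ((h.trans h1).trans h2).trans (Nat.le_add_left _ _)
  · have h1 : (n + 2) ^ e ≤ (n ^ 2) ^ e := Nat.pow_le_pow_left (by nlinarith) e
    have h2 : (n ^ 2) ^ e ≤ n ^ (2 * e + 3 ^ e) := by
      rw [← pow_mul]
      exact Nat.pow_le_pow_right (by omega) (Nat.le_add_right _ _)
    exact (h.trans (h1.trans h2)).trans (Nat.le_add_right _ _)

theorem PP1_len {n w d m : ℕ} (C : OC n w d m) (x : Fin n → Bool) :
    (descr C x).length = 4 + 2 * n + w + d + m + bitsC n w d m := by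
  simp only [descr, List.length_append, List.length_replicate, List.length_cons, List.length_ofFn,
    length_bitsOf]
  ring

/-- the constant part of the code string -/
noncomputable def PP1_pre (K : ℕ) {n w d m : ℕ} (C : OC n w d m) : List Bool :=
  false :: (List.replicate ((4 + 2 * n + w + d + m + bitsC n w d m + 1) ^ K) true ++ false ::
    (List.replicate n true ++ false :: (List.replicate w true ++ false ::
    (List.replicate d true ++ false :: (List.replicate m true ++ false ::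
      bitsOf (bitsC n w d m) (Fintype.equivFin (OC n w d m) C))))))

theorem PP1_code (K : ℕ) {n w d m : ℕ} (C : OC n w d m) (x : Fin n → Bool) :
    code (RR K) 0 (descr C x) = PP1_pre K C ++ List.ofFn x := by
  have h1 : (RR K 0).eval (descr C x).length =
      (4 + 2 * n + w + d + m + bitsC n w d m + 1) ^ K := by
    rw [PP1_len]
    simp [RR]
  rw [code, h1, PP1_pre, descr]
  simp [List.append_assoc]

theorem PP1_prelen (K : ℕ) {n w d m : ℕ} (C : OC n w d m) :
    (PP1_pre K C).length + n = 2 + (4 + 2 * n + w + d + m + bitsC n w d m + 1) ^ K +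
      (4 + 2 * n + w + d + m + bitsC n w d m) := by
  simp only [PP1_pre, List.length_append, List.length_replicate, List.length_cons,
    length_bitsOf]
  ring

theorem one_of_ppoly {K : ℕ} {A : Oracle} (h : ∀ (n w d m : ℕ) (C : OC n w d m)
    (x : Fin n → Bool), A (code (RR K) 0 (descr C x)) = C.out A x) {g : Fam}
    (hg : InPpoly A g) : InOne A g := by
  obtain ⟨c, hc⟩ := hg
  have hW : PP1_PB (fun n => n ^ c + c) := PP1_add (PP1_pow PP1_id c) (PP1_const c)
  have hD : PP1_PB (fun n => 4 + 2 * n + (n ^ c + c) + (n ^ c + c) + (n ^ c + c) +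
      (n ^ c + c) * (n ^ c + c) * ((n ^ c + c + 3) * (2 * n + (n ^ c + c) + (n ^ c + c) + 10))) :=
    PP1_add (PP1_add (PP1_add (PP1_add (PP1_add (PP1_const 4) (PP1_mul (PP1_const 2) PP1_id)) hW)
      hW) hW) (PP1_mul (PP1_mul hW hW) (PP1_mul (PP1_add hW (PP1_const 3))
        (PP1_add (PP1_add (PP1_add (PP1_mul (PP1_const 2) PP1_id) hW) hW) (PP1_const 10))))
  have hL := PP1_add (PP1_add (PP1_const 2) (PP1_pow (PP1_add hD (PP1_const 1)) K)) hD
  obtain ⟨c', hc'⟩ := PP1_fin hL
  refine ⟨c', fun n => ?_⟩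
  obtain ⟨w, d, m, hw, hd, hm, C, hC⟩ := hc n
  refine ⟨(PP1_pre K C).map (fun b => Src.const b) ++ List.ofFn (fun i => Src.lit i true), ?_, ?_⟩
  · refine le_trans ?_ (hc' n)
    rw [List.length_append, List.length_map, List.length_ofFn, PP1_prelen]
    have hb := bitsC_le n w d m
    have hb2 : w * d * ((m + 3) * (2 * n + w + m + 10)) ≤ (n ^ c + c) * (n ^ c + c) *
        ((n ^ c + c + 3) * (2 * n + (n ^ c + c) + (n ^ c + c) + 10)) :=
      Nat.mul_le_mul (Nat.mul_le_mul hw hd) (Nat.mul_le_mul (by omega) (by omega))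
    have hlen : 4 + 2 * n + w + d + m + bitsC n w d m ≤
        4 + 2 * n + (n ^ c + c) + (n ^ c + c) + (n ^ c + c) +
      (n ^ c + c) * (n ^ c + c) *
        ((n ^ c + c + 3) * (2 * n + (n ^ c + c) + (n ^ c + c) + 10)) := by
      have := hb.trans hb2
      omega
    have hpow := Nat.pow_le_pow_left (Nat.add_le_add_right hlen 1) K
    exact Nat.add_le_add (Nat.add_le_add_left hpow 2) hlen
  · intro x
    rw [← hC x, ← h n w d m C x, PP1_code, List.map_append, List.map_map]
    congr 2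
    · symm
      have : (Src.val x (fun j : Fin 0 => j.elim0)) ∘ (fun b => Src.const b) = id := by
        funext b
        rfl
      rw [this, List.map_id]
    · rw [List.map_ofFn]
      congr 1
      funext i
      simp [Src.val]

end Pool.Agent.H628R5.SN

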