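import Pool.Agent.H628R5.SN.F_NU1

/-! Numbers. -/

namespace Pool.Agent.H628R5.SN

open Filter (atTop)

theorem numNC (c : ℕ) : ∀ᶠ n : ℕ in atTop, ∀ w r, w ≤ n ^ c + c → r ≤ Nat.log 2 n ^ c + c →
    2 ≤ n ∧ r < n ∧ 2 ^ 10 * (r * n * (4 * (r * w))) ≤ 2 ^ side n := by
  obtain ⟨l0, hl0⟩ := NU1_poly c
  rw [Filter.eventually_atTop]
  refine ⟨2 ^ (l0 + c + 16), fun n hn w r hw hr => ?_⟩
  have hn0 : n ≠ 0 := by
    have : 0 < 2 ^ (l0 + c + 16) := by positivity
    omega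
  have hlog : l0 + c + 16 ≤ Nat.log 2 n := Nat.le_log_of_pow_le (by norm_num) hn
  have h2 : 2 ^ Nat.log 2 n ≤ n := Nat.pow_log_le_self 2 hn0
  have h3 : n ≤ 2 ^ (Nat.log 2 n + 1) := (Nat.lt_pow_succ_log_self (by norm_num) n).le
  unfold side
  generalize Nat.log 2 n = l at *
  have h1 := hl0 l (by omega)
  have hrn : r < n := by
    have : l ^ c + c < n := by
      have h5 : l ^ c + c + 5 ≤ 2 ^ l := by
        have : 0 ≤ c * (l + 1) := Nat.zero_le _
        omega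
      omega
    omega
  have hwn : w ≤ 2 ^ (c * (l + 1) + 1) := by
    have h4 : n ^ c ≤ 2 ^ (c * (l + 1)) := by
      calc n ^ c ≤ (2 ^ (l + 1)) ^ c := Nat.pow_le_pow_left h3 c
        _ = 2 ^ (c * (l + 1)) := by rw [← pow_mul, mul_comm]
    have h5 : c ≤ 2 ^ (c * (l + 1)) := by
      calc c ≤ 2 ^ c := Nat.lt_two_pow_self.le
        _ ≤ 2 ^ (c * (l + 1)) := Nat.pow_le_pow_right (by norm_num)
            (Nat.le_mul_of_pos_right _ (by omega))
    calc w ≤ n ^ c + c := hw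
      _ ≤ 2 ^ (c * (l + 1)) + 2 ^ (c * (l + 1)) := add_le_add h4 h5
      _ = 2 ^ (c * (l + 1) + 1) := by rw [pow_succ]; ring
  have hr2 : r ≤ 2 ^ (l + 1) := by omega
  refine ⟨?_, hrn, ?_⟩
  · have h6 : 2 ^ 1 ≤ 2 ^ l := Nat.pow_le_pow_right (by norm_num) (by omega)
    omega
  · calc 2 ^ 10 * (r * n * (4 * (r * w)))
        ≤ 2 ^ 10 * (2 ^ (l + 1) * 2 ^ (l + 1) * (4 * (2 ^ (l + 1) * 2 ^ (c * (l + 1) + 1)))) := by
          gcongr
      _ = 2 ^ (13 + (c + 3) * (l + 1)) := by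
          rw [show (4 : ℕ) = 2 ^ 2 by norm_num, ← pow_add, ← pow_add, ← pow_add, ← pow_add,
            ← pow_add]
          congr 1
          ring
      _ ≤ 2 ^ (l + 1) ^ 2 := by
          apply Nat.pow_le_pow_right (by norm_num)
          have h7 : c + 16 ≤ l + 1 := by omega
          calc 13 + (c + 3) * (l + 1) ≤ 13 * (l + 1) + (c + 3) * (l + 1) := by
                have : 1 ≤ l + 1 := by omega
                nlinarith
            _ = (c + 16) * (l + 1) := by ring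
            _ ≤ (l + 1) * (l + 1) := Nat.mul_le_mul_right _ h7
            _ = (l + 1) ^ 2 := by ring

end Pool.Agent.H628R5.SN
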