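import Pool.Agent.H628R5.SN.Base
import Pool.Agent.H620R2.Gauge.NonNull
import Pool.Agent.H620R2.Gauge2.Null
import Pool.Agent.H620R2.Gauge.Y
import Pool.Agent.H620R2.Gauge.Cover
import Pool.Agent.H628R5.SN.F_BIT

/-! Task NU3 (helper255): the number of circuits. -/

namespace Pool.Agent.H628R5.SN

open Pool.Agent.NPC Pool.Agent.H620R2.Gauge Finset H568R2 Pool.Agent.H676

theorem NU3_card (n w d m t : ℕ) (hw : w ≤ t) (hd : d ≤ t) (hm : m ≤ t) :
    Fintype.card (OC n w d m) ≤ 2 ^ (t * t * ((t + 3) * (2 * n + 2 * t + 10))) := by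
  have h1 : Fintype.card (OC n w d m) ≤ 2 ^ bitsC n w d m := Nat.le_pow_clog (by norm_num) _
  refine h1.trans (Nat.pow_le_pow_right (by norm_num) ?_)
  refine (bitsC_le n w d m).trans ?_
  exact Nat.mul_le_mul (Nat.mul_le_mul hw hd) (Nat.mul_le_mul (by omega) (by omega))

theorem circ_count (c : ℕ) : ∃ P : Polynomial ℕ, ∀ n,
    ∑ w ∈ range (n ^ c + c + 1), ∑ d ∈ range (n ^ c + c + 1), ∑ m ∈ range (n ^ c + c + 1),
      Fintype.card (OC n w d m) ≤ 2 ^ P.eval n := by
  refine ⟨3 * (Polynomial.X ^ c + Polynomial.C (c + 1)) +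
    (Polynomial.X ^ c + Polynomial.C (c + 1)) * (Polynomial.X ^ c + Polynomial.C (c + 1)) *
    (((Polynomial.X ^ c + Polynomial.C (c + 1)) + 3) * (2 * Polynomial.X +
      2 * (Polynomial.X ^ c + Polynomial.C (c + 1)) + 10)), fun n => ?_⟩
  have hev : (3 * (Polynomial.X ^ c + Polynomial.C (c + 1)) +
    (Polynomial.X ^ c + Polynomial.C (c + 1)) * (Polynomial.X ^ c + Polynomial.C (c + 1)) *
    (((Polynomial.X ^ c + Polynomial.C (c + 1)) + 3) * (2 * Polynomial.X +
      2 * (Polynomial.X ^ c + Polynomial.C (c + 1)) + 10)) : Polynomial ℕ).eval n =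
      3 * (n ^ c + c + 1) + (n ^ c + c + 1) * (n ^ c + c + 1) *
        ((n ^ c + c + 1 + 3) * (2 * n + 2 * (n ^ c + c + 1) + 10)) := by
    simp only [Polynomial.eval_add, Polynomial.eval_mul, Polynomial.eval_pow, Polynomial.eval_X,
      Polynomial.eval_C, Polynomial.eval_ofNat]
    ring
  rw [hev]
  generalize n ^ c + c + 1 = t
  have h1 : ∀ w ∈ range t, ∀ d ∈ range t, ∀ m ∈ range t,
      Fintype.card (OC n w d m) ≤ 2 ^ (t * t * ((t + 3) * (2 * n + 2 * t + 10))) := by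
    intro w hw d hd m hm
    rw [Finset.mem_range] at hw hd hm
    exact NU3_card n w d m t hw.le hd.le hm.le
  have ht : t ≤ 2 ^ t := Nat.lt_two_pow_self.le
  calc ∑ w ∈ range t, ∑ d ∈ range t, ∑ m ∈ range t, Fintype.card (OC n w d m)
      ≤ ∑ _w ∈ range t, ∑ _d ∈ range t, ∑ _m ∈ range t,
        2 ^ (t * t * ((t + 3) * (2 * n + 2 * t + 10))) :=
        Finset.sum_le_sum fun w hw => Finset.sum_le_sum fun d hd =>
          Finset.sum_le_sum fun m hm => h1 w hw d hd m hm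
    _ = t * (t * (t * 2 ^ (t * t * ((t + 3) * (2 * n + 2 * t + 10))))) := by
        simp only [Finset.sum_const, Finset.card_range, smul_eq_mul]
    _ ≤ 2 ^ t * (2 ^ t * (2 ^ t * 2 ^ (t * t * ((t + 3) * (2 * n + 2 * t + 10))))) :=
        Nat.mul_le_mul ht (Nat.mul_le_mul ht (Nat.mul_le_mul ht le_rfl))
    _ = 2 ^ (3 * t + t * t * ((t + 3) * (2 * n + 2 * t + 10))) := by
        rw [← pow_add, ← pow_add, ← pow_add]
        congr 1
        ring

end Pool.Agent.H628R5.SN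

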