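import Pool.Agent.H628R5.SN.F_SHO

/-! The questions of a circuit. -/

namespace Pool.Agent.H628R5.SN

open Pool.Agent.NPC Pool.Agent.H620R2.Gauge Finset H568R2 Pool.Agent.H676

theorem mem_asks {n w d m : ℕ} (C : OC n w d m) (A : Oracle) (x : Fin n → Bool) {j : ℕ}
    (hj : j < d) {i : Fin w} {k : Fin (m + 1)} {s : Fin m → Src n w}
    (hg : C ⟨j, hj⟩ i = .ask k s) : query x (C.layer A x j) k s ∈ C.asks A x j := by
  unfold OC.asks
  rw [dif_pos hj, mem_biUnion]
  refine ⟨i, mem_univ _, ?_⟩
  rw [hg]
  exact mem_singleton_self _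

theorem layer_local {n w d m : ℕ} (C : OC n w d m) (x : Fin n → Bool) (A A' : Oracle) (j : ℕ)
    (h : ∀ i < j, ∀ y ∈ C.asks A x i, A y = A' y) :
    C.layer A x j = C.layer A' x j ∧ C.asks A x j = C.asks A' x j := by
  have h1 : C.layer A x j = C.layer A' x j := by
    induction j with
    | zero => rfl
    | succ j ih =>
      have ih' := ih (fun i hi => h i (by omega))
      unfold OC.layer
      rw [← ih']
      split_ifs with hj
      · funext i
        cases hg : C ⟨j, hj⟩ i with
        | and a b => rfl
        | or a b => rfl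
        | not a => rfl
        | ask k s =>
          show A _ = A' _
          exact h j (by omega) _ (mem_asks C A x hj hg)
      · rfl
  refine ⟨h1, ?_⟩
  unfold OC.asks
  rw [h1]

theorem out_local {n w d m : ℕ} (C : OC n w d m) (x : Fin n → Bool) (A A' : Oracle)
    (h : ∀ i < d, ∀ y ∈ C.asks A x i, A y = A' y) : C.out A x = C.out A' x := by
  unfold OC.out
  rw [(layer_local C x A A' d h).1]

theorem card_asks {n w d m : ℕ} (C : OC n w d m) (A : Oracle) (x : Fin n → Bool) (j : ℕ) :
    (C.asks A x j).card ≤ w := by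
  unfold OC.asks
  split_ifs with hj
  · refine (Finset.card_biUnion_le).trans ?_
    refine (Finset.sum_le_sum (g := fun _ => 1) ?_).trans (by simp)
    intro i _
    split
    · simp
    · simp
  · simp

theorem length_asks {n w d m : ℕ} (C : OC n w d m) (A : Oracle) (x : Fin n → Bool) (j : ℕ) :
    ∀ y ∈ C.asks A x j, y.length ≤ m := by
  intro y hy
  unfold OC.asks at hy
  split_ifs at hy with hj
  · rw [mem_biUnion] at hy
    obtain ⟨i, _, hi⟩ := hy
    split at hi
    · rw [mem_singleton] at hi
      rw [hi]
      exact length_query _ _ _ _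
    · simp at hi
  · simp at hy

end Pool.Agent.H628R5.SN
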