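import Pool.Agent.H628R5.SN.Base
import Pool.Agent.H620R2.Gauge.NonNull
import Pool.Agent.H620R2.Gauge2.Null
import Pool.Agent.H620R2.Gauge.Y
import Pool.Agent.H620R2.Gauge.Cover
import Pool.Agent.H628R5.SN.F_ASC
import Pool.Agent.H628R5.SN.F_QNC
import Pool.Agent.H628R5.SN.F_C5
import Pool.Agent.H628R5.SN.F_NU3
import Pool.Agent.H628R5.SN.F_NU2
import Pool.Agent.H628R5.SN.F_SHO

/-! Task NNX: the oracles for which the chain function is in non-uniform `NC`. -/

namespace Pool.Agent.H628R5.SN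

open Pool.Agent.NPC Pool.Agent.H620R2.Gauge Finset H568R2 Pool.Agent.H676
open Filter (atTop)

theorem NNX_length_ent (n : ℕ) (x : Fin n → Bool) (j : ℕ) (y : Fin (side n) → Bool) (i : ℕ) :
    (ent n x j y i).length = n + side n + (i + (j + 1)) := by
  simp [ent]
  omega

theorem NNX_chain_congr {A A' : Oracle} {n : ℕ} (x : Fin n → Bool)
    (h : ∀ y : List Bool, y.length ≤ 2 * n + 2 * side n + 2 → A y = A' y) :
    ∀ j ≤ n, chain n A x j = chain n A' x j := by
  intro j
  induction j with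
  | zero => intro _; rfl
  | succ j ih =>
    intro hj
    have h1 := ih (by omega)
    funext i
    simp only [chain]
    rw [h1]
    apply h
    rw [NNX_length_ent]
    have := i.2
    omega

theorem NNX_chainF_congr {A A' : Oracle} {n : ℕ} (x : Fin n → Bool)
    (h : ∀ y : List Bool, y.length ≤ 2 * n + 2 * side n + 2 → A y = A' y) :
    chainF A n x = chainF A' n x := by
  unfold chainF
  rw [NNX_chain_congr x h (n - 1) (by omega)]
  apply h
  rw [NNX_length_ent]
  omega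

open Classical in
theorem NNX_circ_bound (n N w d m : ℕ) (hN : 2 ^ (2 * n + 2 * side n + 3) ≤ N) (h2 : 2 ≤ n)
    (hr : d < n) (hs : 2 ^ 10 * (d * n * (4 * (d * w))) ≤ 2 ^ side n) (C : OC n w d m) :
    Ex unif (fun v : Fin N → Bool =>
      if ∀ x, chainF (orc N v) n x = C.out (orc N v) x then (1 : ℝ) else 0)
      ≤ 2 / 2 ^ 2 ^ (n - 1) := by
  refine chain_bound (r := d) (q := d * w) h2 hN hr
    (fun x i v => C.asks (orc N v) x i) ?_ ?_ hs (fun x v => C.out (orc N v) x) ?_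
  · intro x i v v' h
    exact (layer_local C x (orc N v) (orc N v') i h).2
  · intro x v
    refine (sum_le_card_nsmul _ _ w fun i _ => card_asks C (orc N v) x i).trans ?_
    simp
  · intro x v v' h
    exact out_local C x _ _ h

/-- the event -/
def NNX_Ev (c n N : ℕ) (v : Fin N → Bool) : Prop :=
  ∃ w ∈ range (n ^ c + c + 1), ∃ d ∈ range (n ^ c + c + 1), ∃ m ∈ range (n ^ c + c + 1),
    d ≤ Nat.log 2 n ^ c + c ∧
    ∃ C : OC n w d m, ∀ x, chainF (orc N v) n x = C.out (orc N v) x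

open Classical in
theorem NNX_event_bound (c n N : ℕ) (β : ℝ) (hβ : 0 ≤ β)
    (hC : ∀ w ≤ n ^ c + c, ∀ d ≤ Nat.log 2 n ^ c + c, ∀ m, ∀ C : OC n w d m,
      Ex unif (fun v : Fin N → Bool =>
        if ∀ x, chainF (orc N v) n x = C.out (orc N v) x then (1 : ℝ) else 0) ≤ β) :
    Ex unif (fun v : Fin N → Bool => if NNX_Ev c n N v then (1 : ℝ) else 0) ≤
      (∑ w ∈ range (n ^ c + c + 1), ∑ d ∈ range (n ^ c + c + 1), ∑ m ∈ range (n ^ c + c + 1),
        (Fintype.card (OC n w d m) : ℝ)) * β := by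
  let T : (w d m : ℕ) → OC n w d m → (Fin N → Bool) → ℝ := fun w d m C v =>
    if d ≤ Nat.log 2 n ^ c + c ∧ ∀ x, chainF (orc N v) n x = C.out (orc N v) x then 1 else 0
  have hT0 : ∀ w d m (C : OC n w d m) v, 0 ≤ T w d m C v := by
    intro w d m C v
    simp only [T]
    split_ifs <;> norm_num
  have h1 : ∀ v : Fin N → Bool, (if NNX_Ev c n N v then (1 : ℝ) else 0) ≤
      ∑ w ∈ range (n ^ c + c + 1), ∑ d ∈ range (n ^ c + c + 1), ∑ m ∈ range (n ^ c + c + 1),
        ∑ C : OC n w d m, T w d m C v := by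
    intro v
    have nn1 : ∀ w d m, 0 ≤ ∑ C : OC n w d m, T w d m C v := fun w d m =>
      sum_nonneg fun C _ => hT0 w d m C v
    have nn2 : ∀ w d, 0 ≤ ∑ m ∈ range (n ^ c + c + 1), ∑ C : OC n w d m, T w d m C v :=
      fun w d => sum_nonneg fun m _ => nn1 w d m
    have nn3 : ∀ w, 0 ≤ ∑ d ∈ range (n ^ c + c + 1), ∑ m ∈ range (n ^ c + c + 1),
        ∑ C : OC n w d m, T w d m C v := fun w => sum_nonneg fun d _ => nn2 w d
    split_ifs with hE
    · obtain ⟨w, hw, d, hd, m, hm, hdl, C, hC⟩ := hE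
      have e1 : (1 : ℝ) = T w d m C v := by
        simp only [T]
        rw [if_pos ⟨hdl, hC⟩]
      calc (1 : ℝ) = T w d m C v := e1
        _ ≤ ∑ C : OC n w d m, T w d m C v :=
          single_le_sum (f := fun C => T w d m C v) (fun C _ => hT0 w d m C v) (mem_univ C)
        _ ≤ ∑ m ∈ range (n ^ c + c + 1), ∑ C : OC n w d m, T w d m C v :=
          single_le_sum (f := fun m => ∑ C : OC n w d m, T w d m C v)
            (fun m _ => nn1 w d m) hm
        _ ≤ ∑ d ∈ range (n ^ c + c + 1), ∑ m ∈ range (n ^ c + c + 1),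
              ∑ C : OC n w d m, T w d m C v :=
          single_le_sum (f := fun d => ∑ m ∈ range (n ^ c + c + 1),
            ∑ C : OC n w d m, T w d m C v) (fun d _ => nn2 w d) hd
        _ ≤ _ :=
          single_le_sum (f := fun w => ∑ d ∈ range (n ^ c + c + 1),
            ∑ m ∈ range (n ^ c + c + 1), ∑ C : OC n w d m, T w d m C v)
            (fun w _ => nn3 w) hw
    · exact sum_nonneg fun w _ => nn3 w
  refine (Ex_mono (w := unif) (fun a => by unfold unif; norm_num) h1).trans ?_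
  rw [Ex_sum, sum_mul]
  refine sum_le_sum fun w hw => ?_
  rw [Ex_sum, sum_mul]
  refine sum_le_sum fun d _ => ?_
  rw [Ex_sum, sum_mul]
  refine sum_le_sum fun m _ => ?_
  rw [Ex_sum]
  have hEx : ∀ C : OC n w d m, Ex unif (T w d m C) ≤ β := by
    intro C
    by_cases hd : d ≤ Nat.log 2 n ^ c + c
    · refine le_trans (le_of_eq ?_) (hC w (Nat.lt_succ_iff.1 (mem_range.1 hw)) d hd m C)
      congr 1
      funext v
      simp only [T, hd, true_and]
    · have h0 : T w d m C = fun _ => 0 := by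
        funext v
        simp only [T, hd, false_and, if_false]
      rw [h0]
      have : Ex unif (fun _ : Fin N → Bool => (0 : ℝ)) = 0 := by simp [Ex]
      rw [this]
      exact hβ
  refine (sum_le_sum fun C _ => hEx C).trans ?_
  rw [sum_const, card_univ, nsmul_eq_mul]

open Classical in
theorem NNX_one (f : ℕ → ℝ)
    (hf : ∀ ε : ℝ, 0 < ε → ∃ᶠ N : ℕ in atTop, f N ≤ 2 ^ (Real.logb 2 N) ^ ε) (c : ℕ) :
    Null f {A : Oracle | ∀ n, ∃ w d m, w ≤ n ^ c + c ∧ d ≤ Nat.log 2 n ^ c + c ∧ m ≤ n ^ c + c ∧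
      ∃ C : OC n w d m, ∀ x, C.out A x = chainF A n x} := by
  intro δ hδ
  obtain ⟨n₀, hn₀⟩ := Filter.eventually_atTop.1 (numNC c)
  obtain ⟨P, hP⟩ := circ_count c
  let Q : Polynomial ℕ := Polynomial.C 2 * Polynomial.X +
    Polynomial.C 2 * (Polynomial.X + Polynomial.C 1) ^ 2 + Polynomial.X ^ c +
    Polynomial.C (c + 6)
  obtain ⟨n, N, hn, hN, hδN⟩ := asyC P Q f hf δ hδ n₀
  have hQ : Q.eval n = 2 * n + 2 * (n + 1) ^ 2 + n ^ c + (c + 6) := by simp [Q]
  rw [hQ] at hN
  have hnum := hn₀ n hn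
  have hside : side n ≤ (n + 1) ^ 2 := by
    unfold side
    exact Nat.pow_le_pow_left (Nat.succ_le_succ (Nat.log_le_self 2 n)) 2
  have hN1 : 2 ^ (2 * n + 2 * side n + 3) ≤ N :=
    (Nat.pow_le_pow_right (by norm_num) (by
      have : 0 ≤ n ^ c := Nat.zero_le _
      omega)).trans hN
  have hN2 : 2 ^ (n ^ c + c + 3) ≤ N :=
    (Nat.pow_le_pow_right (by norm_num) (by
      have : 0 ≤ (n + 1) ^ 2 := Nat.zero_le _
      omega)).trans hN
  have hlogle : Nat.log 2 n ^ c + c ≤ n ^ c + c :=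
    Nat.add_le_add_right (Nat.pow_le_pow_left (Nat.log_le_self 2 n) c) c
  have hb := NNX_event_bound c n N (2 / 2 ^ 2 ^ (n - 1)) (by positivity) (by
    intro w hw d hd m C
    obtain ⟨h2, hr, hs⟩ := hnum w d hw hd
    exact NNX_circ_bound n N w d m hN1 h2 hr hs C)
  have hcount : (∑ w ∈ range (n ^ c + c + 1), ∑ d ∈ range (n ^ c + c + 1),
      ∑ m ∈ range (n ^ c + c + 1), (Fintype.card (OC n w d m) : ℝ)) ≤ 2 ^ P.eval n := by
    have := hP n
    exact_mod_cast this
  have hb2 : Ex unif (fun v : Fin N → Bool => if NNX_Ev c n N v then (1 : ℝ) else 0) ≤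
      2 ^ P.eval n * (2 / 2 ^ 2 ^ (n - 1)) :=
    hb.trans (mul_le_mul_of_nonneg_right hcount (by positivity))
  obtain ⟨S, hS, hS'⟩ := cover_of_event (NNX_Ev c n N)
    {A : Oracle | ∀ n, ∃ w d m, w ≤ n ^ c + c ∧ d ≤ Nat.log 2 n ^ c + c ∧ m ≤ n ^ c + c ∧
      ∃ C : OC n w d m, ∀ x, C.out A x = chainF A n x} (by
      intro A hA
      obtain ⟨w, d, m, hw, hd, hm, C, hC⟩ := hA n
      refine ⟨w, mem_range.2 (by omega), d, mem_range.2 (by omega), m, mem_range.2 (by omega),
        hd, C, fun x => ?_⟩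
      have hloc : ∀ (L : ℕ), 2 ^ (L + 1) ≤ N → ∀ y : List Bool, y.length ≤ L →
          orc N (pre N A) y = A y := by
        intro L hL y hy
        apply orc_pre
        have h1 := idx_lt y
        have h2 : 2 ^ (y.length + 1) ≤ 2 ^ (L + 1) :=
          Nat.pow_le_pow_right (by norm_num) (by omega)
        omega
      have e1 : chainF (orc N (pre N A)) n x = chainF A n x :=
        NNX_chainF_congr x (hloc (2 * n + 2 * side n + 2) hN1)
      have e2 : C.out (orc N (pre N A)) x = C.out A x :=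
        out_short C x _ _ (hloc m
          ((Nat.pow_le_pow_right (by norm_num) (by omega)).trans hN2))
      rw [e1, e2, hC]) f δ (by
      refine le_trans ?_ hδN
      refine mul_le_mul_of_nonneg_right (le_trans (le_of_eq ?_) hb2) (by positivity)
      congr 1)
  exact ⟨S, hS, hS'⟩

theorem nullNC (f : ℕ → ℝ)
    (hf : ∀ ε : ℝ, 0 < ε → ∃ᶠ N : ℕ in atTop, f N ≤ 2 ^ (Real.logb 2 N) ^ ε) :
    Null f {A : Oracle | InNC A (chainF A)} := by
  refine (null_iUnion (f := f) (fun c : ℕ => {A : Oracle | ∀ n, ∃ w d m, w ≤ n ^ c + c ∧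
    d ≤ Nat.log 2 n ^ c + c ∧ m ≤ n ^ c + c ∧
      ∃ C : OC n w d m, ∀ x, C.out A x = chainF A n x}) fun c => NNX_one f hf c).mono ?_
  intro A hA
  obtain ⟨c, hc⟩ := hA
  exact Set.mem_iUnion.2 ⟨c, hc⟩

end Pool.Agent.H628R5.SN

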