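import Pool.Agent.H628R5.SN.Base
import Pool.Agent.H620R2.Gauge.NonNull
import Pool.Agent.H620R2.Gauge2.Null
import Pool.Agent.H620R2.Gauge.Y
import Pool.Agent.H620R2.Gauge.Cover

/-! NU1 (helper142) -/

namespace Pool.Agent.H628R5.SN

open Filter (atTop)

theorem NU1_poly (c : ℕ) : ∃ l0 : ℕ, ∀ l : ℕ, l0 ≤ l →
    5 + c * (l + 1) + 2 * (l ^ c + c) ≤ 2 ^ l := by
  have h := tendsto_pow_const_div_const_pow_of_one_lt (c + 1) (one_lt_two : (1 : ℝ) < 2)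
  have hpos : (0 : ℝ) < 1 / (7 + 4 * c) := by positivity
  have h2 := h.eventually_lt_const hpos
  obtain ⟨l1, hl1⟩ := Filter.eventually_atTop.1 h2
  refine ⟨max l1 1, fun l hl => ?_⟩
  have hl1' : l1 ≤ l := (le_max_left _ _).trans hl
  have hl2 : 1 ≤ l := (le_max_right _ _).trans hl
  have h3 := hl1 l hl1'
  have h4 : (0 : ℝ) < (2 : ℝ) ^ l := by positivity
  have h7 : (0 : ℝ) < 7 + 4 * c := by positivity
  rw [div_lt_div_iff₀ h4 h7, one_mul] at h3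
  have h5 : (l ^ (c + 1)) * (7 + 4 * c) < 2 ^ l := by exact_mod_cast h3
  have e1 : 1 ≤ l ^ (c + 1) := Nat.one_le_pow _ _ hl2
  have e2 : l ≤ l ^ (c + 1) := by
    calc l = l ^ 1 := (pow_one l).symm
      _ ≤ l ^ (c + 1) := Nat.pow_le_pow_right hl2 (by omega)
  have e3 : l ^ c ≤ l ^ (c + 1) := Nat.pow_le_pow_right hl2 (by omega)
  have e4 : c * (l + 1) ≤ c * (2 * l ^ (c + 1)) := Nat.mul_le_mul_left _ (by omega)
  have e5 : c ≤ c * l ^ (c + 1) := Nat.le_mul_of_pos_right _ e1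
  nlinarith

theorem numSC (c : ℕ) : ∀ᶠ n : ℕ in atTop, ∀ w d, w ≤ Nat.log 2 n ^ c + c → d ≤ n ^ c + c →
    16 * (2 ^ n * (d * w * 2 ^ w)) ≤ 2 ^ (2 * n) := by
  obtain ⟨l0, hl0⟩ := NU1_poly c
  rw [Filter.eventually_atTop]
  refine ⟨2 ^ l0, fun n hn w d hw hd => ?_⟩
  have hn0 : n ≠ 0 := by
    have : 0 < 2 ^ l0 := by positivity
    omega
  have hlog : l0 ≤ Nat.log 2 n := Nat.le_log_of_pow_le (by norm_num) hn
  obtain ⟨l, hl⟩ : ∃ l, l = Nat.log 2 n := ⟨_, rfl⟩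
  rw [← hl] at hw hlog
  have h1 := hl0 l hlog
  have h2 : 2 ^ l ≤ n := by rw [hl]; exact Nat.pow_log_le_self 2 hn0
  have h3 : n ≤ 2 ^ (l + 1) := by rw [hl]; exact (Nat.lt_pow_succ_log_self (by norm_num) n).le
  have hdn : d ≤ 2 ^ (c * (l + 1) + 1) := by
    have h4 : n ^ c ≤ 2 ^ (c * (l + 1)) := by
      calc n ^ c ≤ (2 ^ (l + 1)) ^ c := Nat.pow_le_pow_left h3 c
        _ = 2 ^ (c * (l + 1)) := by rw [← pow_mul, mul_comm]
    have h5 : c ≤ 2 ^ (c * (l + 1)) := by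
      calc c ≤ 2 ^ c := Nat.lt_two_pow_self.le
        _ ≤ 2 ^ (c * (l + 1)) := Nat.pow_le_pow_right (by norm_num) (Nat.le_mul_of_pos_right _ (by omega))
    calc d ≤ n ^ c + c := hd
      _ ≤ 2 ^ (c * (l + 1)) + 2 ^ (c * (l + 1)) := add_le_add h4 h5
      _ = 2 ^ (c * (l + 1) + 1) := by rw [pow_succ]; ring
  have hww : w * 2 ^ w ≤ 2 ^ (2 * (l ^ c + c)) := by
    calc w * 2 ^ w ≤ 2 ^ w * 2 ^ w := Nat.mul_le_mul_right _ Nat.lt_two_pow_self.le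
      _ = 2 ^ (2 * w) := by rw [← pow_add]; ring_nf
      _ ≤ 2 ^ (2 * (l ^ c + c)) := Nat.pow_le_pow_right (by norm_num) (by omega)
  calc 16 * (2 ^ n * (d * w * 2 ^ w)) = 2 ^ n * (16 * (d * (w * 2 ^ w))) := by ring
    _ ≤ 2 ^ n * (16 * (2 ^ (c * (l + 1) + 1) * 2 ^ (2 * (l ^ c + c)))) :=
        Nat.mul_le_mul_left _ (Nat.mul_le_mul_left _ (Nat.mul_le_mul hdn hww))
    _ = 2 ^ n * 2 ^ (5 + c * (l + 1) + 2 * (l ^ c + c)) := by
        rw [show (16 : ℕ) = 2 ^ 4 by norm_num, ← pow_add, ← pow_add]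
        congr 2
        ring
    _ ≤ 2 ^ n * 2 ^ n := Nat.mul_le_mul_left _ (Nat.pow_le_pow_right (by norm_num) (h1.trans h2))
    _ = 2 ^ (2 * n) := by rw [← pow_add]; ring_nf

end Pool.Agent.H628R5.SN

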