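import Pool.Agent.H628R5.SN.Base
import Pool.Agent.H628R5.SN.Defs

set_option autoImplicit false

namespace Pool.Agent.H628R5.SN

open Pool.Agent.H620R2.Gauge Finset

/-- the possible questions of the gate number `i` of the layer `j` with the values `v` -/
def QSC_q {n w d m : ℕ} (C : OC n w d m) (x : Fin n → Bool)
    (p : Fin d × Fin w × (Fin w → Bool)) : List Bool :=
  match C p.1 p.2.1 with
  | .ask k s => query x p.2.2 k s
  | _ => []

theorem QSC_len {n w d m : ℕ} (C : OC n w d m) (x : Fin n → Bool)
    (p : Fin d × Fin w × (Fin w → Bool)) : (QSC_q C x p).length ≤ m := by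
  unfold QSC_q
  split
  · unfold query
    rw [List.length_take, List.length_ofFn]
    exact min_le_right _ _
  · exact Nat.zero_le _

theorem asksSC {n w d m : ℕ} (C : OC n w d m) (x : Fin n → Bool) :
    ∃ W : Finset (List Bool), (∀ y ∈ W, y.length ≤ m) ∧ W.card ≤ d * w * 2 ^ w ∧
      ∀ A A' : Oracle, (∀ y ∈ W, A y = A' y) → C.out A x = C.out A' x := by
  classical
  refine ⟨(univ : Finset (Fin d × Fin w × (Fin w → Bool))).image (QSC_q C x), ?_, ?_, ?_⟩
  · intro y hy
    rw [Finset.mem_image] at hy
    obtain ⟨p, _, rfl⟩ := hy
    exact QSC_len C x p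
  · refine Finset.card_image_le.trans (le_of_eq ?_)
    rw [Finset.card_univ]
    simp [Fintype.card_prod, mul_assoc]
  · intro A A' h
    have hl : ∀ j, C.layer A x j = C.layer A' x j := by
      intro j
      induction j with
      | zero => rfl
      | succ j ih =>
        unfold OC.layer
        split_ifs with hj
        · funext i
          rw [ih]
          have hq := h (QSC_q C x (⟨j, hj⟩, i, C.layer A' x j))
            (Finset.mem_image_of_mem _ (Finset.mem_univ _))
          unfold QSC_q at hq
          cases hg : C ⟨j, hj⟩ i with
          | and a b => rfl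
          | or a b => rfl
          | not a => rfl
          | ask k s =>
            simp only [hg] at hq
            exact hq
        · exact ih
    unfold OC.out
    split_ifs with hw
    · rw [hl]
    · rfl

end Pool.Agent.H628R5.SN

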