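import Pool.Agent.H628R5.SN.Base
import Pool.Agent.H620R2.Gauge.NonNull
import Pool.Agent.H620R2.Gauge2.Null
import Pool.Agent.H620R2.Gauge.Y
import Pool.Agent.H620R2.Gauge.Cover
import Pool.Agent.H628R5.SN.F_QSC
import Pool.Agent.H628R5.SN.F_ASC
import Pool.Agent.H628R5.SN.F_NU3
import Pool.Agent.H628R5.SN.F_L3
import Pool.Agent.H628R5.SN.F_NU1

/-! The oracles for which the first test function is in non-uniform `SC`. -/

namespace Pool.Agent.H628R5.SN

open Pool.Agent.NPC Pool.Agent.H620R2.Gauge Finset H568R2 Pool.Agent.H676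
open Filter (atTop)

theorem NSC_leafF_congr {A A' : Oracle} {n : ℕ}
    (h : ∀ y : List Bool, y.length ≤ 4 * n → A y = A' y) (x : Fin n → Bool) :
    leafF A n x = leafF A' n x := by
  have h1 : addr n A x = addr n A' x := by
    funext i
    unfold addr
    apply h
    have := i.2
    simp only [List.length_append, List.length_ofFn, List.length_replicate]
    omega
  unfold leafF
  rw [h1]
  apply h
  unfold leafS
  simp only [List.length_append, List.length_ofFn, List.length_replicate]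
  omega

open Classical in
theorem NSC_circ {n N c w d m : ℕ} (hn : 1 ≤ n) (hN : 2 ^ (4 * n + 2) ≤ N)
    (hw : w ≤ Nat.log 2 n ^ c + c) (hd : d ≤ n ^ c + c)
    (hsm : ∀ w d, w ≤ Nat.log 2 n ^ c + c → d ≤ n ^ c + c →
      16 * (2 ^ n * (d * w * 2 ^ w)) ≤ 2 ^ (2 * n)) (C : OC n w d m) :
    Ex unif (fun v : Fin N → Bool =>
      if ∀ x, leafF (orc N v) n x = C.out (orc N v) x then (1 : ℝ) else 0) ≤
      2 / 2 ^ 2 ^ (n - 1) := by
  choose W hW1 hW2 hW3 using fun x : Fin n → Bool => asksSC C x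
  refine leaf_bound n N hn hN (univ.biUnion W) ?_ (fun x v => C.out (orc N v) x) ?_
  · have h1 : (univ.biUnion W).card ≤ (univ : Finset (Fin n → Bool)).card * (d * w * 2 ^ w) :=
      Finset.card_biUnion_le_card_mul _ _ _ fun x _ => hW2 x
    have h2 : (univ : Finset (Fin n → Bool)).card = 2 ^ n := by
      rw [Finset.card_univ]; simp
    rw [h2] at h1
    exact (Nat.mul_le_mul_left 16 h1).trans (hsm w d hw hd)
  · intro x v v' hv
    exact hW3 x _ _ fun y hy => hv y (Finset.mem_biUnion.2 ⟨x, Finset.mem_univ _, hy⟩)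

/-- the event -/
def NSC_Ev (c n N : ℕ) (v : Fin N → Bool) : Prop :=
  ∃ w d m, w ≤ Nat.log 2 n ^ c + c ∧ d ≤ n ^ c + c ∧ m ≤ n ^ c + c ∧
    ∃ C : OC n w d m, ∀ x, leafF (orc N v) n x = C.out (orc N v) x

open Classical in
theorem NSC_bound {c n N : ℕ} {P : Polynomial ℕ} (hn : 1 ≤ n) (hN : 2 ^ (4 * n + 2) ≤ N)
    (hsm : ∀ w d, w ≤ Nat.log 2 n ^ c + c → d ≤ n ^ c + c →
      16 * (2 ^ n * (d * w * 2 ^ w)) ≤ 2 ^ (2 * n))
    (hP : ∑ w ∈ range (n ^ c + c + 1), ∑ d ∈ range (n ^ c + c + 1),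
      ∑ m ∈ range (n ^ c + c + 1), Fintype.card (OC n w d m) ≤ 2 ^ P.eval n) :
    Ex unif (fun v : Fin N → Bool => if NSC_Ev c n N v then (1 : ℝ) else 0) ≤
      2 ^ P.eval n * (2 / 2 ^ 2 ^ (n - 1)) := by
  have hB : (0 : ℝ) ≤ 2 / 2 ^ 2 ^ (n - 1) := by positivity
  have hU : Ex unif (fun v : Fin N → Bool => if NSC_Ev c n N v then (1 : ℝ) else 0) ≤
      ∑ w ∈ range (n ^ c + c + 1), ∑ d ∈ range (n ^ c + c + 1), ∑ m ∈ range (n ^ c + c + 1),
        ∑ C : OC n w d m, Ex unif (fun v : Fin N → Bool =>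
          if w ≤ Nat.log 2 n ^ c + c ∧ ∀ x, leafF (orc N v) n x = C.out (orc N v) x
            then (1 : ℝ) else 0) := by
    simp only [← Ex_sum]
    apply Ex_mono unif_nonneg
    intro v
    by_cases hE : NSC_Ev c n N v
    · rw [if_pos hE]
      obtain ⟨w, d, m, hw, hd, hm, C, hC⟩ := hE
      have hlog : Nat.log 2 n ^ c + c ≤ n ^ c + c :=
        Nat.add_le_add_right (Nat.pow_le_pow_left (Nat.log_le_self 2 n) c) c
      refine le_trans ?_ (Finset.single_le_sum (f := fun w => ∑ d ∈ range (n ^ c + c + 1),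
        ∑ m ∈ range (n ^ c + c + 1), ∑ C : OC n w d m,
          if w ≤ Nat.log 2 n ^ c + c ∧ ∀ x, leafF (orc N v) n x = C.out (orc N v) x
            then (1 : ℝ) else 0)
        (fun w _ => Finset.sum_nonneg fun d _ => Finset.sum_nonneg fun m _ =>
          Finset.sum_nonneg fun C _ => by positivity)
        (Finset.mem_range.2 (Nat.lt_succ_of_le (hw.trans hlog))))
      refine le_trans ?_ (Finset.single_le_sum (f := fun d =>
        ∑ m ∈ range (n ^ c + c + 1), ∑ C : OC n w d m,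
          if w ≤ Nat.log 2 n ^ c + c ∧ ∀ x, leafF (orc N v) n x = C.out (orc N v) x
            then (1 : ℝ) else 0)
        (fun d _ => Finset.sum_nonneg fun m _ =>
          Finset.sum_nonneg fun C _ => by positivity)
        (Finset.mem_range.2 (Nat.lt_succ_of_le hd)))
      refine le_trans ?_ (Finset.single_le_sum (f := fun m => ∑ C : OC n w d m,
          if w ≤ Nat.log 2 n ^ c + c ∧ ∀ x, leafF (orc N v) n x = C.out (orc N v) x
            then (1 : ℝ) else 0)
        (fun m _ => Finset.sum_nonneg fun C _ => by positivity)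
        (Finset.mem_range.2 (Nat.lt_succ_of_le hm)))
      refine le_trans ?_ (Finset.single_le_sum (f := fun C : OC n w d m =>
          if w ≤ Nat.log 2 n ^ c + c ∧ ∀ x, leafF (orc N v) n x = C.out (orc N v) x
            then (1 : ℝ) else 0)
        (fun C _ => by positivity) (Finset.mem_univ C))
      rw [if_pos ⟨hw, hC⟩]
    · rw [if_neg hE]
      exact Finset.sum_nonneg fun w _ => Finset.sum_nonneg fun d _ => Finset.sum_nonneg fun m _ =>
        Finset.sum_nonneg fun C _ => by positivity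
  have h1 : ∀ w ∈ range (n ^ c + c + 1), ∀ d ∈ range (n ^ c + c + 1),
      ∀ m ∈ range (n ^ c + c + 1), ∀ C ∈ (univ : Finset (OC n w d m)),
      Ex unif (fun v : Fin N → Bool =>
        if w ≤ Nat.log 2 n ^ c + c ∧ ∀ x, leafF (orc N v) n x = C.out (orc N v) x
          then (1 : ℝ) else 0) ≤ 2 / 2 ^ 2 ^ (n - 1) := by
    intro w _ d hd m _ C _
    by_cases hw : w ≤ Nat.log 2 n ^ c + c
    · refine le_trans (le_of_eq ?_) (NSC_circ hn hN hw
        (Nat.lt_succ_iff.1 (Finset.mem_range.1 hd)) hsm C)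
      congr 1
      funext v
      simp only [hw, true_and]
    · refine le_trans (le_of_eq ?_) hB
      have : (fun v : Fin N → Bool =>
        if w ≤ Nat.log 2 n ^ c + c ∧ ∀ x, leafF (orc N v) n x = C.out (orc N v) x
          then (1 : ℝ) else 0) = fun _ => 0 := by
        funext v
        rw [if_neg (fun h => hw h.1)]
      rw [this]
      unfold Ex
      simp
  refine hU.trans ((Finset.sum_le_sum fun w hw => Finset.sum_le_sum fun d hd =>
    Finset.sum_le_sum fun m hm => Finset.sum_le_sum (h1 w hw d hd m hm)).trans ?_)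
  have h2 : ∑ w ∈ range (n ^ c + c + 1), ∑ d ∈ range (n ^ c + c + 1),
      ∑ m ∈ range (n ^ c + c + 1), ∑ _C : OC n w d m, (2 / 2 ^ 2 ^ (n - 1) : ℝ) =
      ((∑ w ∈ range (n ^ c + c + 1), ∑ d ∈ range (n ^ c + c + 1),
      ∑ m ∈ range (n ^ c + c + 1), Fintype.card (OC n w d m) : ℕ) : ℝ) *
        (2 / 2 ^ 2 ^ (n - 1)) := by
    simp only [Finset.sum_const, nsmul_eq_mul, Finset.card_univ, Nat.cast_sum, Finset.sum_mul]
  rw [h2]
  apply mul_le_mul_of_nonneg_right _ hB
  exact_mod_cast hP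

theorem NSC_one {f : ℕ → ℝ}
    (hf : ∀ ε : ℝ, 0 < ε → ∃ᶠ N : ℕ in atTop, f N ≤ 2 ^ (Real.logb 2 N) ^ ε) (c : ℕ) :
    Null f {A : Oracle | ∀ n, ∃ w d m, w ≤ Nat.log 2 n ^ c + c ∧ d ≤ n ^ c + c ∧
      m ≤ n ^ c + c ∧ ∃ C : OC n w d m, ∀ x, C.out A x = leafF A n x} := by
  classical
  intro δ hδ
  obtain ⟨P, hP⟩ := circ_count c
  obtain ⟨n₀, hn₀⟩ := Filter.eventually_atTop.1 (numSC c)
  let Q : Polynomial ℕ := Polynomial.X ^ c + Polynomial.C c + Polynomial.C 4 * Polynomial.X +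
    Polynomial.C 3
  obtain ⟨n, N, hn, hN, hδN⟩ := asyC P Q f hf δ hδ (max n₀ 1)
  have hQ : Q.eval n = n ^ c + c + 4 * n + 3 := by simp [Q]
  rw [hQ] at hN
  have hn0 : n₀ ≤ n := (le_max_left _ _).trans hn
  have hn1 : 1 ≤ n := (le_max_right _ _).trans hn
  have hN1 : 2 ^ (4 * n + 2) ≤ N :=
    (Nat.pow_le_pow_right (by norm_num) (by omega)).trans hN
  refine cover_of_event (NSC_Ev c n N) _ ?_ f δ ?_
  · intro A hA
    obtain ⟨w, d, m, hw, hd, hm, C, hC⟩ := hA n
    refine ⟨w, d, m, hw, hd, hm, C, fun x => ?_⟩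
    have hloc : ∀ y : List Bool, y.length ≤ n ^ c + c + 4 * n → orc N (pre N A) y = A y := by
      intro y hy
      apply orc_pre
      have h1 := idx_lt y
      have h2 : 2 ^ (y.length + 1) ≤ 2 ^ (n ^ c + c + 4 * n + 3) :=
        Nat.pow_le_pow_right (by norm_num) (by omega)
      omega
    rw [NSC_leafF_congr (A := orc N (pre N A)) (A' := A) (fun y hy => hloc y (by omega)) x,
      ← hC x]
    obtain ⟨W, hW1, _, hW3⟩ := asksSC C x
    exact hW3 _ _ fun y hy => (hloc y ((hW1 y hy).trans (by omega))).symm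
  · refine le_trans ?_ hδN
    refine mul_le_mul_of_nonneg_right ?_ (by positivity)
    exact NSC_bound hn1 hN1 (hn₀ n hn0) (hP n)

theorem nullSC (f : ℕ → ℝ)
    (hf : ∀ ε : ℝ, 0 < ε → ∃ᶠ N : ℕ in atTop, f N ≤ 2 ^ (Real.logb 2 N) ^ ε) :
    Null f {A : Oracle | InSC A (leafF A)} := by
  refine (null_iUnion (fun c : ℕ => {A : Oracle | ∀ n, ∃ w d m,
    w ≤ Nat.log 2 n ^ c + c ∧ d ≤ n ^ c + c ∧ m ≤ n ^ c + c ∧
      ∃ C : OC n w d m, ∀ x, C.out A x = leafF A n x}) (NSC_one hf)).mono ?_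
  rintro A ⟨c, hc⟩
  exact Set.mem_iUnion.2 ⟨c, hc⟩

end Pool.Agent.H628R5.SN

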