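import Pool.Agent.H628R5.SN.Base
import Pool.Agent.H620R2.Gauge.NonNull
import Pool.Agent.H620R2.Gauge2.Null
import Pool.Agent.H620R2.Gauge.Y
import Pool.Agent.H620R2.Gauge.Cover

/-! Task ONE (helper666): single oracle gates are in `SC` and in `NC`. -/

set_option autoImplicit false

namespace Pool.Agent.H628R5.SN

open Pool.Agent.H620R2.Gauge

/-- sources without former layer as sources -/
def ONE_lift {n : ℕ} : Src n 0 → Src n 1
  | .lit i b => .lit i b
  | .const b => .const b
  | .prev j => j.elim0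

theorem ONE_lift_val {n : ℕ} (x : Fin n → Bool) (v : Fin 1 → Bool) (a : Src n 0) :
    (ONE_lift a).val x v = a.val x (fun j => j.elim0) := by
  cases a with
  | lit i b => rfl
  | const b => rfl
  | prev j => exact j.elim0

theorem ONE_circ {n : ℕ} (l : List (Src n 0)) (m : ℕ) (h : l.length ≤ m) :
    ∃ C : OC n 1 1 m, ∀ (A : Oracle) (x : Fin n → Bool),
      C.out A x = A (l.map (Src.val x (fun j => j.elim0))) := by
  refine ⟨fun _ _ => Gate.ask ⟨l.length, by omega⟩
    (fun i => if hi : (i : ℕ) < l.length then ONE_lift l[(i : ℕ)] else Src.const false), ?_⟩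
  intro A x
  have h1 : ∀ v : Fin 1 → Bool, query x v (⟨l.length, by omega⟩ : Fin (m + 1))
      (fun i : Fin m => if hi : (i : ℕ) < l.length then ONE_lift l[(i : ℕ)] else Src.const false) =
      l.map (Src.val x (fun j => j.elim0)) := by
    intro v
    unfold query
    apply List.ext_getElem
    · simp [h]
    · intro i hi1 hi2
      have hi : i < l.length := by simpa using hi2
      rw [List.getElem_take, List.getElem_ofFn, List.getElem_map]
      simp only [hi, dif_pos]
      exact ONE_lift_val x v _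
  simp only [OC.out, OC.layer, zero_lt_one, dif_pos, Gate.val, h1]

theorem ONE_pow (n c : ℕ) : n ^ c + c ≤ n ^ (c + 1) + (c + 1) := by
  rcases Nat.eq_zero_or_pos n with h | h
  · subst h
    have : 0 ^ c ≤ 1 := by
      rcases Nat.eq_zero_or_pos c with hc | hc
      · simp [hc]
      · simp [Nat.zero_pow hc]
    omega
  · have : n ^ c ≤ n ^ (c + 1) := Nat.pow_le_pow_right h (Nat.le_succ c)
    omega

theorem one_inSC {A : Oracle} {g : Fam} (h : InOne A g) : InSC A g := by
  obtain ⟨c, hc⟩ := h
  refine ⟨c + 1, fun n => ?_⟩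
  obtain ⟨l, hl, hg⟩ := hc n
  obtain ⟨C, hC⟩ := ONE_circ l (n ^ c + c) hl
  exact ⟨1, 1, n ^ c + c, by omega, by omega, ONE_pow n c, C, fun x => by rw [hC, hg]⟩

theorem one_inNC {A : Oracle} {g : Fam} (h : InOne A g) : InNC A g := by
  obtain ⟨c, hc⟩ := h
  refine ⟨c + 1, fun n => ?_⟩
  obtain ⟨l, hl, hg⟩ := hc n
  obtain ⟨C, hC⟩ := ONE_circ l (n ^ c + c) hl
  exact ⟨1, 1, n ^ c + c, by omega, by omega, ONE_pow n c, C, fun x => by rw [hC, hg]⟩

end Pool.Agent.H628R5.SN

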