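import Pool.Agent.H628R5.SN.F_NNC
import Pool.Agent.H628R5.SN.F_NSC
import Pool.Agent.H628R5.SN.F_NNX
import Pool.Agent.H628R5.SN.F_CSC
import Pool.Agent.H628R5.SN.F_LNC
import Pool.Agent.H628R5.SN.F_ONE
import Pool.Agent.H620R2.Gauge2.Null

/-! The result. -/


namespace Pool.Agent.H628R5.SN

open Pool.Agent.NPC Pool.Agent.H620R2.Gauge

theorem InSC.inPpoly {A : Oracle} {g : Fam} (h : InSC A g) : InPpoly A g := by
  obtain ⟨c, hc⟩ := h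
  refine ⟨c, fun n => ?_⟩
  obtain ⟨w, d, m, hw, hd, hm, hC⟩ := hc n
  have h1 : Nat.log 2 n ≤ n := Nat.log_le_self 2 n
  exact ⟨w, d, m, hw.trans (Nat.add_le_add_right (Nat.pow_le_pow_left h1 c) c), hd, hm, hC⟩

theorem InNC.inPpoly {A : Oracle} {g : Fam} (h : InNC A g) : InPpoly A g := by
  obtain ⟨c, hc⟩ := h
  refine ⟨c, fun n => ?_⟩
  obtain ⟨w, d, m, hw, hd, hm, hC⟩ := hc n
  have h1 : Nat.log 2 n ≤ n := Nat.log_le_self 2 n
  exact ⟨w, d, m, hw, hd.trans (Nat.add_le_add_right (Nat.pow_le_pow_left h1 c) c), hm, hC⟩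

theorem keyC (f : ℕ → ℝ) (O : Set Oracle)
    (h1 : ∀ A : Oracle, (∀ g, InPpoly A g → InOne A g) → A ∈ O)
    (h2 : ∀ A ∈ O, (∀ g, InNC A g → InSC A g) ∨ (∀ g, InSC A g → InNC A g)) :
    Null f O ↔ ∀ ε : ℝ, 0 < ε → ∃ᶠ N : ℕ in Filter.atTop, f N ≤ 2 ^ (Real.logb 2 N) ^ ε := by
  constructor
  · intro hn ε hε
    by_contra hcon
    rw [Filter.not_frequently] at hcon
    exact not_nullC f ε hε (hcon.mono fun N h => not_le.1 h) O h1 hn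
  · intro hf
    refine (null_union (nullSC f hf) (nullNC f hf)).mono fun A hA => ?_
    rcases h2 A hA with h | h
    · exact Or.inl (h _ (leafF_inNC A))
    · exact Or.inr (h _ (chainF_inSC A))

/-- the result -/
theorem resultC (f : ℕ → ℝ) :
    (∀ O : Set Oracle,
      (∀ A : Oracle, (∀ g, InPpoly A g → InOne A g) → A ∈ O) →
      (∀ A ∈ O, (∀ g, InNC A g → InSC A g) ∨ (∀ g, InSC A g → InNC A g)) →
      (Null f O ↔
        ∀ ε : ℝ, 0 < ε → ∃ᶠ N : ℕ in Filter.atTop, f N ≤ 2 ^ (Real.logb 2 N) ^ ε)) ∧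
    (Null f {A : Oracle | ∀ g, InSC A g ↔ InNC A g} ↔
      ∀ ε : ℝ, 0 < ε → ∃ᶠ N : ℕ in Filter.atTop, f N ≤ 2 ^ (Real.logb 2 N) ^ ε) ∧
    (Null f {A : Oracle | (∀ g, InSC A g → InNC A g) ∨ (∀ g, InNC A g → InSC A g)} ↔
      ∀ ε : ℝ, 0 < ε → ∃ᶠ N : ℕ in Filter.atTop, f N ≤ 2 ^ (Real.logb 2 N) ^ ε) := by
  refine ⟨fun O h1 h2 => keyC f O h1 h2, keyC f _ ?_ ?_, keyC f _ ?_ ?_⟩
  · intro A hA g
    exact ⟨fun h => one_inNC (hA g h.inPpoly), fun h => one_inSC (hA g h.inPpoly)⟩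
  · intro A hA
    exact Or.inl fun g hg => (hA g).2 hg
  · intro A hA
    exact Or.inl fun g hg => one_inNC (hA g hg.inPpoly)
  · intro A hA
    exact hA.symm

end Pool.Agent.H628R5.SN
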