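import Pool.Agent.H628R5.SN.Base
import Pool.Agent.H620R2.Gauge.NonNull
import Pool.Agent.H620R2.Gauge2.Null
import Pool.Agent.H620R2.Gauge.Y
import Pool.Agent.H620R2.Gauge.Cover

/-! The tasks. -/

namespace Pool.Agent.H628R5.SN.Stub

open Pool.Agent.NPC Pool.Agent.H620R2.Gauge Finset H568R2 Pool.Agent.H676 Pool.Agent.H628R5.SN
open Filter (atTop)

-- ONE
theorem one_inSC {A : Oracle} {g : Fam} (h : InOne A g) : InSC A g := by sorry
theorem one_inNC {A : Oracle} {g : Fam} (h : InOne A g) : InNC A g := by sorry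

-- SHO
theorem out_short {n w d m : ℕ} (C : OC n w d m) (x : Fin n → Bool) (A A' : Oracle)
    (h : ∀ y : List Bool, y.length ≤ m → A y = A' y) : C.out A x = C.out A' x := by sorry

-- DSC
theorem descr_out {n w d m n' w' d' m' : ℕ} (C : OC n w d m) (x : Fin n → Bool)
    (C' : OC n' w' d' m') (x' : Fin n' → Bool) (h : descr C x = descr C' x') (A : Oracle) :
    C.out A x = C'.out A x' := by sorry

-- COD
theorem exists_codingC (K : ℕ) (hK : 1 ≤ K) : ∃ Φ : Oracle → Oracle,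
    (∀ B y, (∀ e x, y ≠ code (RR K) e x) → Φ B y = B y) ∧
    ∀ (B : Oracle) (n w d m : ℕ) (C : OC n w d m) (x : Fin n → Bool),
      Φ B (code (RR K) 0 (descr C x)) = C.out (Φ B) x := by sorry

-- BIT
theorem bitsC_le (n w d m : ℕ) : bitsC n w d m ≤ w * d * ((m + 3) * (2 * n + w + m + 10)) := by
  sorry

-- PP1
theorem one_of_ppoly {K : ℕ} {A : Oracle} (h : ∀ (n w d m : ℕ) (C : OC n w d m)
    (x : Fin n → Bool), A (code (RR K) 0 (descr C x)) = C.out A x) {g : Fam}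
    (hg : InPpoly A g) : InOne A g := by sorry

-- NNC
theorem not_nullC (f : ℕ → ℝ) (ε : ℝ) (hε : 0 < ε)
    (hf : ∀ᶠ N : ℕ in atTop, 2 ^ (Real.logb 2 N) ^ ε < f N) (O : Set Oracle)
    (hO : ∀ A : Oracle, (∀ g, InPpoly A g → InOne A g) → A ∈ O) : ¬ Null f O := by sorry

-- CSC
theorem chainF_inSC (A : Oracle) : InSC A (chainF A) := by sorry

-- LNC
theorem leafF_inNC (A : Oracle) : InNC A (leafF A) := by sorry

-- QSC
theorem asksSC {n w d m : ℕ} (C : OC n w d m) (x : Fin n → Bool) :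
    ∃ W : Finset (List Bool), (∀ y ∈ W, y.length ≤ m) ∧ W.card ≤ d * w * 2 ^ w ∧
      ∀ A A' : Oracle, (∀ y ∈ W, A y = A' y) → C.out A x = C.out A' x := by sorry

open Classical in
-- FLI
theorem flip_general {I : Type*} [Fintype I] [DecidableEq I] {ι : Type*} [DecidableEq ι]
    (X : Finset ι) (pos : ι → (I → Bool) → I) (good : ι → (I → Bool) → Prop)
    (G : ι → (I → Bool) → Bool) (u : ℕ)
    (hinj : ∀ v, ∀ x ∈ X, ∀ x' ∈ X, good x v → good x' v → pos x v = pos x' v → x = x')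
    (hflip : ∀ v, ∀ x ∈ X, good x v → ∀ x' ∈ X,
      (good x' (Function.update v (pos x v) (!v (pos x v))) ↔ good x' v) ∧
      (good x' v → pos x' (Function.update v (pos x v) (!v (pos x v))) = pos x' v) ∧
      G x' (Function.update v (pos x v) (!v (pos x v))) = G x' v) :
    (univ.filter (fun v : I → Bool => (∀ x ∈ X, good x v → G x v = v (pos x v)) ∧
      u ≤ (X.filter (fun x => good x v)).card)).card * 2 ^ u ≤ 2 ^ Fintype.card I := by sorry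

-- L0
theorem addr_fix (n N : ℕ) (hN : 2 ^ (4 * n + 2) ≤ N) (S : Finset (Fin n → Bool))
    (a : (Fin n → Bool) → Fin (2 * n) → Bool) :
    (univ.filter (fun v : Fin N → Bool =>
      ∀ x ∈ S, addr n (orc N v) x = a x)).card * 2 ^ (2 * n * S.card) ≤ 2 ^ N := by sorry

-- L1
theorem many_badL (n N : ℕ) (hn : 1 ≤ n) (hN : 2 ^ (4 * n + 2) ≤ N) (W : Finset (List Bool))
    (hW : 16 * W.card ≤ 2 ^ (2 * n)) :
    (univ.filter (fun v : Fin N → Bool => 2 ^ (n - 1) ≤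
      (univ.filter (fun x : Fin n → Bool => leafS n x (addr n (orc N v) x) ∈ W)).card)).card *
      2 ^ 2 ^ n ≤ 2 ^ N := by sorry

open Classical in
-- L2
theorem few_goodL (n N : ℕ) (hn : 1 ≤ n) (hN : 2 ^ (4 * n + 2) ≤ N) (W : Finset (List Bool))
    (G : (Fin n → Bool) → (Fin N → Bool) → Bool)
    (hG : ∀ x v v', (∀ y ∈ W, orc N v y = orc N v' y) → G x v = G x v') :
    (univ.filter (fun v : Fin N → Bool => (∀ x, leafF (orc N v) n x = G x v) ∧ 2 ^ (n - 1) ≤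
      (univ.filter (fun x : Fin n → Bool => leafS n x (addr n (orc N v) x) ∉ W)).card)).card *
      2 ^ 2 ^ (n - 1) ≤ 2 ^ N := by sorry

open Classical in
-- L3
theorem leaf_bound (n N : ℕ) (hn : 1 ≤ n) (hN : 2 ^ (4 * n + 2) ≤ N) (W : Finset (List Bool))
    (hW : 16 * W.card ≤ 2 ^ (2 * n)) (G : (Fin n → Bool) → (Fin N → Bool) → Bool)
    (hG : ∀ x v v', (∀ y ∈ W, orc N v y = orc N v' y) → G x v = G x v') :
    Ex unif (fun v : Fin N → Bool =>
      if ∀ x, leafF (orc N v) n x = G x v then (1 : ℝ) else 0) ≤ 2 / 2 ^ 2 ^ (n - 1) := by sorry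

-- QNC : the layers of a circuit
theorem layer_local {n w d m : ℕ} (C : OC n w d m) (x : Fin n → Bool) (A A' : Oracle) (j : ℕ)
    (h : ∀ i < j, ∀ y ∈ C.asks A x i, A y = A' y) :
    C.layer A x j = C.layer A' x j ∧ C.asks A x j = C.asks A' x j := by sorry
theorem out_local {n w d m : ℕ} (C : OC n w d m) (x : Fin n → Bool) (A A' : Oracle)
    (h : ∀ i < d, ∀ y ∈ C.asks A x i, A y = A' y) : C.out A x = C.out A' x := by sorry
theorem card_asks {n w d m : ℕ} (C : OC n w d m) (A : Oracle) (x : Fin n → Bool) (j : ℕ) :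
    (C.asks A x j).card ≤ w := by sorry
theorem length_asks {n w d m : ℕ} (C : OC n w d m) (A : Oracle) (x : Fin n → Bool) (j : ℕ) :
    ∀ y ∈ C.asks A x j, y.length ≤ m := by sorry

-- HIT
theorem hit {n N r q : ℕ} (hN : 2 ^ (2 * n + 2 * side n + 3) ≤ N) (hr : r < n)
    (Qs : (Fin n → Bool) → ℕ → (Fin N → Bool) → Finset (List Bool))
    (hloc : ∀ x i v v', (∀ i' < i, ∀ y ∈ Qs x i' v, orc N v y = orc N v' y) →
      Qs x i v = Qs x i v') (S : Finset (Fin n → Bool)) :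
    (univ.filter (fun v : Fin N → Bool => ∀ x ∈ S,
      (∃ i < r, ∃ x', ∃ k < side n,
        ent n x (n - 1) (chain n (orc N v) x (n - 1)) k ∈ Qs x' i v) ∧
      ((univ.biUnion (fun x' => (range r).biUnion (fun i => Qs x' i v))).filter
        (fun y => List.ofFn x <+: y)).card ≤ q)).card * 2 ^ (side n * S.card) ≤
      2 ^ N * (r * n * q) ^ S.card := by sorry

-- C3
theorem many_badC {n N r q : ℕ} (hn : 2 ≤ n) (hN : 2 ^ (2 * n + 2 * side n + 3) ≤ N)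
    (hr : r < n) (Qs : (Fin n → Bool) → ℕ → (Fin N → Bool) → Finset (List Bool))
    (hloc : ∀ x i v v', (∀ i' < i, ∀ y ∈ Qs x i' v, orc N v y = orc N v' y) →
      Qs x i v = Qs x i v') (hq : ∀ x v, ∑ i ∈ range r, (Qs x i v).card ≤ q)
    (hs : 2 ^ 10 * (r * n * (4 * q)) ≤ 2 ^ side n) :
    (univ.filter (fun v : Fin N → Bool => 2 ^ (n - 1) ≤ (univ.filter (fun x : Fin n → Bool =>
      ∃ i < r, ∃ x', ∃ k < side n,
        ent n x (n - 1) (chain n (orc N v) x (n - 1)) k ∈ Qs x' i v)).card)).card *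
      2 ^ 2 ^ n ≤ 2 ^ N := by sorry

-- C4
theorem few_goodC {n N r : ℕ} (hn : 2 ≤ n) (hN : 2 ^ (2 * n + 2 * side n + 3) ≤ N)
    (Qs : (Fin n → Bool) → ℕ → (Fin N → Bool) → Finset (List Bool))
    (hloc : ∀ x i v v', (∀ i' < i, ∀ y ∈ Qs x i' v, orc N v y = orc N v' y) →
      Qs x i v = Qs x i v') (G : (Fin n → Bool) → (Fin N → Bool) → Bool)
    (hG : ∀ x v v', (∀ i < r, ∀ y ∈ Qs x i v, orc N v y = orc N v' y) → G x v = G x v') :
    (univ.filter (fun v : Fin N → Bool => (∀ x, chainF (orc N v) n x = G x v) ∧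
      2 ^ (n - 1) ≤ (univ.filter (fun x : Fin n → Bool =>
      ¬ ∃ i < r, ∃ x', ∃ k < side n,
        ent n x (n - 1) (chain n (orc N v) x (n - 1)) k ∈ Qs x' i v)).card)).card *
      2 ^ 2 ^ (n - 1) ≤ 2 ^ N := by sorry

open Classical in
-- C5
theorem chain_bound {n N r q : ℕ} (hn : 2 ≤ n) (hN : 2 ^ (2 * n + 2 * side n + 3) ≤ N)
    (hr : r < n) (Qs : (Fin n → Bool) → ℕ → (Fin N → Bool) → Finset (List Bool))
    (hloc : ∀ x i v v', (∀ i' < i, ∀ y ∈ Qs x i' v, orc N v y = orc N v' y) →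
      Qs x i v = Qs x i v') (hq : ∀ x v, ∑ i ∈ range r, (Qs x i v).card ≤ q)
    (hs : 2 ^ 10 * (r * n * (4 * q)) ≤ 2 ^ side n)
    (G : (Fin n → Bool) → (Fin N → Bool) → Bool)
    (hG : ∀ x v v', (∀ i < r, ∀ y ∈ Qs x i v, orc N v y = orc N v' y) → G x v = G x v') :
    Ex unif (fun v : Fin N → Bool =>
      if ∀ x, chainF (orc N v) n x = G x v then (1 : ℝ) else 0) ≤ 2 / 2 ^ 2 ^ (n - 1) := by sorry

-- ASC
theorem asyC (P Q : Polynomial ℕ) (f : ℕ → ℝ)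
    (hf : ∀ ε : ℝ, 0 < ε → ∃ᶠ N : ℕ in atTop, f N ≤ 2 ^ (Real.logb 2 N) ^ ε)
    (δ : ℝ) (hδ : 0 < δ) (n₀ : ℕ) :
    ∃ n N : ℕ, n₀ ≤ n ∧ 2 ^ (Q.eval n) ≤ N ∧
      (2 ^ P.eval n * (2 / 2 ^ 2 ^ (n - 1)) : ℝ) * 2 ^ f N ≤ δ := by sorry

-- NU1
theorem numSC (c : ℕ) : ∀ᶠ n : ℕ in atTop, ∀ w d, w ≤ Nat.log 2 n ^ c + c → d ≤ n ^ c + c →
    16 * (2 ^ n * (d * w * 2 ^ w)) ≤ 2 ^ (2 * n) := by sorry

-- NU2
theorem numNC (c : ℕ) : ∀ᶠ n : ℕ in atTop, ∀ w r, w ≤ n ^ c + c → r ≤ Nat.log 2 n ^ c + c →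
    2 ≤ n ∧ r < n ∧ 2 ^ 10 * (r * n * (4 * (r * w))) ≤ 2 ^ side n := by sorry

-- NU3
theorem circ_count (c : ℕ) : ∃ P : Polynomial ℕ, ∀ n,
    ∑ w ∈ range (n ^ c + c + 1), ∑ d ∈ range (n ^ c + c + 1), ∑ m ∈ range (n ^ c + c + 1),
      Fintype.card (OC n w d m) ≤ 2 ^ P.eval n := by sorry

-- NSC
theorem nullSC (f : ℕ → ℝ)
    (hf : ∀ ε : ℝ, 0 < ε → ∃ᶠ N : ℕ in atTop, f N ≤ 2 ^ (Real.logb 2 N) ^ ε) :
    Null f {A : Oracle | InSC A (leafF A)} := by sorry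

-- NNX
theorem nullNC (f : ℕ → ℝ)
    (hf : ∀ ε : ℝ, 0 < ε → ∃ᶠ N : ℕ in atTop, f N ≤ 2 ^ (Real.logb 2 N) ^ ε) :
    Null f {A : Oracle | InNC A (chainF A)} := by sorry

end Pool.Agent.H628R5.SN.Stub
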